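import Mathlib

set_option autoImplicit false

namespace Pool.Agent.Results.MP_0fb7f5_co.BooleanIntervals

open Equiv Finset

variable {n : ℕ}

/-- The number of inversions of `w`. -/
def inv (w : Perm (Fin n)) : ℕ :=
  (univ.filter fun p : Fin n × Fin n => p.1 < p.2 ∧ w p.2 < w p.1).card

/-- The strong Bruhat order: generated by `x < x * t`, `t` a transposition increasing `inv`. -/
def Bruhat (u v : Perm (Fin n)) : Prop :=
  Relation.ReflTransGen
    (fun x y : Perm (Fin n) => ∃ i j : Fin n, y = x * swap i j ∧ inv x < inv y) u v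

/-- `rk w a b` is the number of positions `k < a` with `w k ≥ b`. -/
def rk (w : Perm (Fin n)) (a b : ℕ) : ℕ :=
  (univ.filter fun k : Fin n => (k : ℕ) < a ∧ b ≤ (w k : ℕ)).card

/-- entrywise comparison of rank matrices -/
def le (x y : Perm (Fin n)) : Prop := ∀ a b : ℕ, rk x a b ≤ rk y a b

def ind (w : Perm (Fin n)) (a b : ℕ) (k : Fin n) : ℕ :=
  if (k : ℕ) < a ∧ b ≤ (w k : ℕ) then 1 else 0

lemma rk_eq_sum (w : Perm (Fin n)) (a b : ℕ) : rk w a b = ∑ k, ind w a b k := by
  unfold rk ind
  rw [Finset.card_filter]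

lemma rk_two (x w : Perm (Fin n)) {i j : Fin n} (hij : i ≠ j)
    (h : ∀ k, k ≠ i → k ≠ j → w k = x k) (a b : ℕ) :
    rk w a b + ind x a b i + ind x a b j = rk x a b + ind w a b i + ind w a b j := by
  have key : ∀ z : Perm (Fin n), rk z a b =
      (∑ k ∈ (univ.erase i).erase j, ind z a b k) + ind z a b j + ind z a b i := by
    intro z
    rw [rk_eq_sum, ← Finset.sum_erase_add univ _ (mem_univ i),
      ← Finset.sum_erase_add (univ.erase i) _ (mem_erase.2 ⟨hij.symm, mem_univ j⟩)]
  have hc : (∑ k ∈ (univ.erase i).erase j, ind w a b k) =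
      ∑ k ∈ (univ.erase i).erase j, ind x a b k := by
    apply Finset.sum_congr rfl
    intro k hk
    simp only [mem_erase, mem_univ, and_true] at hk
    simp [ind, h k hk.2 hk.1]
  rw [key w, key x, hc]
  omega

lemma rk_three (x w : Perm (Fin n)) {i j m : Fin n} (hij : i ≠ j) (him : i ≠ m) (hjm : j ≠ m)
    (h : ∀ k, k ≠ i → k ≠ j → k ≠ m → w k = x k) (a b : ℕ) :
    rk w a b + ind x a b i + ind x a b j + ind x a b m =
      rk x a b + ind w a b i + ind w a b j + ind w a b m := by
  have key : ∀ z : Perm (Fin n), rk z a b =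
      (∑ k ∈ ((univ.erase i).erase j).erase m, ind z a b k)
        + ind z a b m + ind z a b j + ind z a b i := by
    intro z
    rw [rk_eq_sum, ← Finset.sum_erase_add univ _ (mem_univ i),
      ← Finset.sum_erase_add (univ.erase i) _ (mem_erase.2 ⟨hij.symm, mem_univ j⟩),
      ← Finset.sum_erase_add ((univ.erase i).erase j) _
        (mem_erase.2 ⟨hjm.symm, mem_erase.2 ⟨him.symm, mem_univ m⟩⟩)]
  have hc : (∑ k ∈ ((univ.erase i).erase j).erase m, ind w a b k) =
      ∑ k ∈ ((univ.erase i).erase j).erase m, ind x a b k := by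
    apply Finset.sum_congr rfl
    intro k hk
    simp only [mem_erase, mem_univ, and_true] at hk
    simp [ind, h k hk.2.2 hk.2.1 hk.1]
  rw [key w, key x, hc]
  omega

lemma rk_swap (x : Perm (Fin n)) {i j : Fin n} (hij : i < j) (hx : x i < x j) (a b : ℕ) :
    rk (x * swap i j) a b = rk x a b +
      if ((i : ℕ) < a ∧ a ≤ (j : ℕ) ∧ (x i : ℕ) < b ∧ b ≤ (x j : ℕ)) then 1 else 0 := by
  have h := rk_two x (x * swap i j) (ne_of_lt hij) (fun k hki hkj => by
    simp [swap_apply_of_ne_of_ne hki hkj]) a b
  simp only [ind, Perm.mul_apply, swap_apply_left, swap_apply_right] at h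
  have h1 : (i : ℕ) < (j : ℕ) := hij
  have h2 : (x i : ℕ) < (x j : ℕ) := hx
  split_ifs at h ⊢ <;> omega

lemma le_refl' (x : Perm (Fin n)) : le x x := fun _ _ => le_rfl
lemma le_trans' {x y z : Perm (Fin n)} (h1 : le x y) (h2 : le y z) : le x z :=
  fun a b => (h1 a b).trans (h2 a b)

lemma le_swap (x : Perm (Fin n)) {i j : Fin n} (hij : i < j) (hx : x i < x j) :
    le x (x * swap i j) := by
  intro a b
  rw [rk_swap x hij hx]
  omega


lemma inv_eq_sum (w : Perm (Fin n)) : inv w = ∑ k : Fin n, rk w (k : ℕ) ((w k : ℕ) + 1) := by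
  unfold inv rk
  simp only [Finset.card_filter]
  rw [← Finset.univ_product_univ, Finset.sum_product_right]
  rfl

/-- number of positions strictly inside the rectangle -/
def inner (x : Perm (Fin n)) (i j : Fin n) : ℕ :=
  (univ.filter fun k : Fin n => i < k ∧ k < j ∧ x i < x k ∧ x k < x j).card

lemma inv_swap (x : Perm (Fin n)) {i j : Fin n} (hij : i < j) (hx : x i < x j) :
    inv (x * swap i j) = inv x + 1 + 2 * inner x i j := by
  have hne : i ≠ j := ne_of_lt hij
  have h1 : (i : ℕ) < (j : ℕ) := hij
  have h2 : (x i : ℕ) < (x j : ℕ) := hx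
  rw [inv_eq_sum, inv_eq_sum]
  have split : ∀ f : Fin n → ℕ, ∑ k, f k = (∑ k ∈ (univ.erase i).erase j, f k) + f j + f i := by
    intro f
    rw [← Finset.sum_erase_add univ _ (mem_univ i),
      ← Finset.sum_erase_add (univ.erase i) _ (mem_erase.2 ⟨hne.symm, mem_univ j⟩)]
  rw [split, split]
  have hmid : (∑ k ∈ (univ.erase i).erase j, rk (x * swap i j) (k : ℕ) (((x * swap i j) k : ℕ) + 1))
      = (∑ k ∈ (univ.erase i).erase j, rk x (k : ℕ) ((x k : ℕ) + 1)) + inner x i j := by
    have : inner x i j = ∑ k ∈ (univ.erase i).erase j,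
        (if (i < k ∧ k < j ∧ x i < x k ∧ x k < x j) then 1 else 0) := by
      unfold inner
      rw [Finset.card_filter, split]
      simp
    rw [this, ← Finset.sum_add_distrib]
    apply Finset.sum_congr rfl
    intro k hk
    simp only [mem_erase, mem_univ, and_true] at hk
    have hxk : (x * swap i j) k = x k := by
      simp [swap_apply_of_ne_of_ne hk.2 hk.1]
    rw [hxk, rk_swap x hij hx]
    congr 1
    have hk1 : (k : ℕ) ≠ (i : ℕ) := fun h => hk.2 (Fin.ext h)
    have hk2 : (k : ℕ) ≠ (j : ℕ) := fun h => hk.1 (Fin.ext h)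
    have hk3 : (x k : ℕ) ≠ (x i : ℕ) := fun h => hk.2 (x.injective (Fin.ext h))
    have hk4 : (x k : ℕ) ≠ (x j : ℕ) := fun h => hk.1 (x.injective (Fin.ext h))
    simp only [Fin.lt_def]
    split_ifs <;> omega
  have hi : rk (x * swap i j) (i : ℕ) (((x * swap i j) i : ℕ) + 1) = rk x (i : ℕ) ((x j : ℕ) + 1) := by
    rw [rk_swap x hij hx]
    simp
  have hj : rk (x * swap i j) (j : ℕ) (((x * swap i j) j : ℕ) + 1)
      = rk x (j : ℕ) ((x i : ℕ) + 1) + 1 := by
    rw [rk_swap x hij hx]
    simp only [Perm.mul_apply, swap_apply_right]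
    rw [if_pos]
    omega
  rw [hmid, hi, hj]
  -- remaining identity of rank counts
  have e1 : rk x (j : ℕ) ((x i : ℕ) + 1) + rk x (i : ℕ) ((x j : ℕ) + 1)
      = rk x (j : ℕ) ((x j : ℕ) + 1) + rk x (i : ℕ) ((x i : ℕ) + 1) + inner x i j := by
    unfold inner
    simp only [rk_eq_sum]
    rw [Finset.card_filter, ← Finset.sum_add_distrib, ← Finset.sum_add_distrib,
      ← Finset.sum_add_distrib]
    apply Finset.sum_congr rfl
    intro k _
    unfold ind
    have hk3 : (x k : ℕ) = (x i : ℕ) → (k : ℕ) = (i : ℕ) := fun h => by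
      rw [x.injective (Fin.ext h)]
    have hk4 : (x k : ℕ) = (x j : ℕ) → (k : ℕ) = (j : ℕ) := fun h => by
      rw [x.injective (Fin.ext h)]
    have hk5 : (k : ℕ) = (i : ℕ) → (x k : ℕ) = (x i : ℕ) := fun h => by
      rw [(Fin.ext h : k = i)]
    simp only [Fin.lt_def]
    split_ifs <;> omega
  omega

lemma inv_lt_swap (x : Perm (Fin n)) {i j : Fin n} (hij : i < j) (hx : x i < x j) :
    inv x < inv (x * swap i j) := by
  rw [inv_swap x hij hx]; omega

lemma swap_of_gt (x : Perm (Fin n)) {i j : Fin n} (hij : i < j) (hx : x j < x i) :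
    le (x * swap i j) x ∧ inv (x * swap i j) < inv x := by
  have h0 : (x * swap i j) * swap i j = x := by rw [mul_assoc, swap_mul_self, mul_one]
  have hx' : (x * swap i j) i < (x * swap i j) j := by simpa using hx
  constructor
  · have := le_swap (x * swap i j) hij hx'
    rwa [h0] at this
  · have := inv_lt_swap (x * swap i j) hij hx'
    rwa [h0] at this

/-- edge of the Bruhat graph -/
def edge (x y : Perm (Fin n)) : Prop :=
  ∃ i j : Fin n, i < j ∧ x i < x j ∧ y = x * swap i j

lemma bruhat_step_iff (x y : Perm (Fin n)) :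
    (∃ i j : Fin n, y = x * swap i j ∧ inv x < inv y) ↔ edge x y := by
  constructor
  · rintro ⟨i, j, rfl, h⟩
    rcases lt_trichotomy i j with hij | rfl | hij
    · refine ⟨i, j, hij, ?_, rfl⟩
      by_contra hx
      have hx' : x j < x i := lt_of_le_of_ne (not_lt.1 hx) (fun e => (ne_of_lt hij) (x.injective e).symm)
      have := (swap_of_gt x hij hx').2
      omega
    · have h0 : x * swap i i = x := by ext k; simp
      rw [h0] at h
      omega
    · rw [swap_comm] at h ⊢
      refine ⟨j, i, hij, ?_, rfl⟩
      by_contra hx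
      have hx' : x i < x j := lt_of_le_of_ne (not_lt.1 hx) (fun e => (ne_of_lt hij) (x.injective e).symm)
      have := (swap_of_gt x hij hx').2
      omega
  · rintro ⟨i, j, hij, hx, rfl⟩
    exact ⟨i, j, rfl, inv_lt_swap x hij hx⟩

lemma edge_le {x y : Perm (Fin n)} (h : edge x y) : le x y := by
  obtain ⟨i, j, hij, hx, rfl⟩ := h
  exact le_swap x hij hx

lemma edge_inv {x y : Perm (Fin n)} (h : edge x y) : inv x < inv y := by
  obtain ⟨i, j, hij, hx, rfl⟩ := h
  exact inv_lt_swap x hij hx


/-- covering edge of the Bruhat graph -/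
def cov (x y : Perm (Fin n)) : Prop := edge x y ∧ inv y = inv x + 1

lemma cov_of_inner (x : Perm (Fin n)) {i j : Fin n} (hij : i < j) (hx : x i < x j)
    (h0 : inner x i j = 0) : cov x (x * swap i j) :=
  ⟨⟨i, j, hij, hx, rfl⟩, by rw [inv_swap x hij hx, h0]⟩

lemma exists_cov {x v : Perm (Fin n)} (h : le x v) (hne : x ≠ v) :
    ∃ y, cov x y ∧ le y v := by
  classical
  have hS : (univ.filter fun i : Fin n => x i ≠ v i).Nonempty := by
    by_contra hcon
    rw [Finset.not_nonempty_iff_eq_empty, Finset.filter_eq_empty_iff] at hcon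
    exact hne (Equiv.ext fun i => by simpa using hcon (mem_univ i))
  obtain ⟨i, hiS, himin⟩ := Finset.exists_min_image _ (fun i : Fin n => i) hS
  simp only [mem_filter, mem_univ, true_and] at hiS himin
  have hlow : ∀ k, k < i → x k = v k := by
    intro k hk
    by_contra hc
    exact absurd (himin k hc) (not_le.2 hk)
  have hxv : x i < v i := by
    have h1 := h ((i : ℕ) + 1) (x i : ℕ)
    rw [rk_eq_sum, rk_eq_sum, ← Finset.sum_erase_add univ _ (mem_univ i),
      ← Finset.sum_erase_add univ (fun k => ind v ((i : ℕ) + 1) (x i : ℕ) k) (mem_univ i)] at h1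
    have h2 : ∑ k ∈ univ.erase i, ind x ((i : ℕ) + 1) (x i : ℕ) k =
        ∑ k ∈ univ.erase i, ind v ((i : ℕ) + 1) (x i : ℕ) k := by
      apply Finset.sum_congr rfl
      intro k hk
      simp only [mem_erase, mem_univ, and_true] at hk
      unfold ind
      rcases lt_or_gt_of_ne hk with hk | hk
      · rw [hlow k hk]
      · have : ¬ ((k : ℕ) < (i : ℕ) + 1) := by
          have : (i : ℕ) < (k : ℕ) := hk
          omega
        simp [this]
    rw [h2] at h1
    have h3 : ind x ((i : ℕ) + 1) (x i : ℕ) i = 1 := by simp [ind]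
    rw [h3] at h1
    have h4 : 1 ≤ ind v ((i : ℕ) + 1) (x i : ℕ) i := by omega
    have h5 : x i ≤ v i := by
      unfold ind at h4
      split_ifs at h4 with h6
      · exact h6.2
      · omega
    exact lt_of_le_of_ne h5 hiS
  have hT : (univ.filter fun j : Fin n => i < j ∧ x i < x j ∧ x j ≤ v i).Nonempty := by
    refine ⟨x.symm (v i), ?_⟩
    simp only [mem_filter, mem_univ, true_and, Equiv.apply_symm_apply, le_refl, and_true]
    refine ⟨?_, hxv⟩
    rcases lt_trichotomy i (x.symm (v i)) with h1 | h1 | h1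
    · exact h1
    · have : x i = v i := by
        conv_lhs => rw [h1]
        simp
      exact absurd this hiS
    · have h2 := hlow _ h1
      rw [Equiv.apply_symm_apply] at h2
      have h3 := v.injective h2
      rw [← h3] at h1
      exact absurd h1 (lt_irrefl _)
  obtain ⟨j, hjT, hjmin⟩ := Finset.exists_min_image _ (fun i : Fin n => i) hT
  simp only [mem_filter, mem_univ, true_and] at hjT hjmin
  obtain ⟨hij, hxij, hxjv⟩ := hjT
  have hmin : ∀ k, i < k → k < j → x i < x k → v i < x k := by
    intro k h1 h2 h3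
    by_contra hc
    exact absurd (hjmin k ⟨h1, h3, not_lt.1 hc⟩) (not_le.2 h2)
  refine ⟨x * swap i j, cov_of_inner x hij hxij ?_, ?_⟩
  · unfold inner
    rw [Finset.card_eq_zero, Finset.filter_eq_empty_iff]
    rintro k - ⟨h1, h2, h3, h4⟩
    exact absurd (lt_of_lt_of_le h4 hxjv) (not_lt.2 (le_of_lt (hmin k h1 h2 h3)))
  · intro a b
    rw [rk_swap x hij hxij]
    split_ifs with hc
    · obtain ⟨c1, c2, c3, c4⟩ := hc
      have hv := h a ((v i : ℕ) + 1)
      have key : rk x a b + rk v a ((v i : ℕ) + 1) + 1 ≤ rk v a b + rk x a ((v i : ℕ) + 1) := by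
        have hone : (1 : ℕ) = ∑ k : Fin n, if k = i then 1 else 0 := by simp
        rw [hone]
        simp only [rk_eq_sum]
        rw [← Finset.sum_add_distrib, ← Finset.sum_add_distrib, ← Finset.sum_add_distrib]
        apply Finset.sum_le_sum
        intro k _
        unfold ind
        have hv1 : (x j : ℕ) ≤ (v i : ℕ) := hxjv
        have hv2 : (x i : ℕ) < (v i : ℕ) := hxv
        rcases lt_trichotomy k i with hk | hk | hk
        · rw [hlow k hk]
          have : k ≠ i := ne_of_lt hk
          simp only [this, if_false, add_zero]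
          split_ifs <;> omega
        · subst hk
          simp only [if_true]
          split_ifs <;> omega
        · have hne' : k ≠ i := ne_of_gt hk
          simp only [hne', if_false, add_zero]
          by_cases hka : (k : ℕ) < a
          · have hkj : k < j := by
              show (k : ℕ) < (j : ℕ)
              omega
            have hm : (x i : ℕ) < (x k : ℕ) → (v i : ℕ) < (x k : ℕ) := hmin k hk hkj
            split_ifs <;> omega
          · simp [hka]
      omega
    · exact h a b

lemma inv_le_sq (x : Perm (Fin n)) : inv x ≤ n * n := by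
  unfold inv
  refine (Finset.card_filter_le _ _).trans ?_
  simp

/-- from `x` to `v` there is a chain of covers -/
lemma chain_of_le {x v : Perm (Fin n)} (h : le x v) : Relation.ReflTransGen cov x v := by
  induction hN : n * n - inv x using Nat.strong_induction_on generalizing x with
  | _ N ih =>
    by_cases hne : x = v
    · rw [hne]
    · obtain ⟨y, hxy, hyv⟩ := exists_cov h hne
      refine Relation.ReflTransGen.head hxy (ih (n * n - inv y) ?_ hyv rfl)
      have := inv_le_sq y
      have := hxy.2
      omega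

lemma bruhat_iff_le (u v : Perm (Fin n)) : Bruhat u v ↔ le u v := by
  constructor
  · intro h
    induction h with
    | refl => exact le_refl' u
    | tail _ hbc ih => exact le_trans' ih (edge_le ((bruhat_step_iff _ _).1 hbc))
  · intro h
    have hc := chain_of_le h
    clear h
    induction hc with
    | refl => exact Relation.ReflTransGen.refl
    | tail _ hbc ih => exact Relation.ReflTransGen.tail ih ((bruhat_step_iff _ _).2 hbc.1)

lemma inv_le_of_le {x y : Perm (Fin n)} (h : le x y) : inv x ≤ inv y := by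
  have := chain_of_le h
  clear h
  induction this with
  | refl => exact le_rfl
  | tail _ hbc ih => have := hbc.2; omega

lemma eq_of_le_of_inv {x y : Perm (Fin n)} (h : le x y) (hi : inv y ≤ inv x) : x = y := by
  by_contra hne
  obtain ⟨z, hz, hzy⟩ := exists_cov h hne
  have := inv_le_of_le hzy
  have := hz.2
  omega

lemma inv_lt_of_le_ne {x y : Perm (Fin n)} (h : le x y) (hne : x ≠ y) : inv x < inv y := by
  by_contra hc
  exact hne (eq_of_le_of_inv h (not_lt.1 hc))

/-- product of two truth values, as a number -/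
def e2 (p q : Bool) : ℕ := (p && q).toNat

lemma ite_e2 (p q : Prop) [Decidable p] [Decidable q] :
    (if p ∧ q then 1 else 0 : ℕ) = e2 (decide p) (decide q) := by
  unfold e2
  by_cases hp : p <;> by_cases hq : q <;> simp [hp, hq]

lemma rk_three_e (x : Perm (Fin n)) {i j m : Fin n} (hij : i ≠ j) (him : i ≠ m) (hjm : j ≠ m)
    (a b : ℕ) : ∃ R : ℕ, ∀ (w : Perm (Fin n)) (A B C : Fin n),
      (∀ k, k ≠ i → k ≠ j → k ≠ m → w k = x k) → w i = A → w j = B → w m = C →
      rk w a b = R + e2 (decide ((i : ℕ) < a)) (decide (b ≤ (A : ℕ)))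
        + e2 (decide ((j : ℕ) < a)) (decide (b ≤ (B : ℕ)))
        + e2 (decide ((m : ℕ) < a)) (decide (b ≤ (C : ℕ))) := by
  refine ⟨∑ k ∈ ((univ.erase i).erase j).erase m, ind x a b k, ?_⟩
  intro w A B C h hA hB hC
  rw [rk_eq_sum, ← Finset.sum_erase_add univ _ (mem_univ i),
      ← Finset.sum_erase_add (univ.erase i) _ (mem_erase.2 ⟨hij.symm, mem_univ j⟩),
      ← Finset.sum_erase_add ((univ.erase i).erase j) _
        (mem_erase.2 ⟨hjm.symm, mem_erase.2 ⟨him.symm, mem_univ m⟩⟩)]
  have hc : (∑ k ∈ ((univ.erase i).erase j).erase m, ind w a b k) =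
      ∑ k ∈ ((univ.erase i).erase j).erase m, ind x a b k := by
    apply Finset.sum_congr rfl
    intro k hk
    simp only [mem_erase, mem_univ, and_true] at hk
    simp [ind, h k hk.2.2 hk.2.1 hk.1]
  rw [hc]
  have hi : ind w a b i = e2 (decide ((i : ℕ) < a)) (decide (b ≤ (A : ℕ))) := by
    rw [← ite_e2, ← hA]; rfl
  have hj : ind w a b j = e2 (decide ((j : ℕ) < a)) (decide (b ≤ (B : ℕ))) := by
    rw [← ite_e2, ← hB]; rfl
  have hm : ind w a b m = e2 (decide ((m : ℕ) < a)) (decide (b ≤ (C : ℕ))) := by
    rw [← ite_e2, ← hC]; rfl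
  rw [hi, hj, hm]
  omega

lemma cell_right : ∀ I J M A B C : Bool, (J → I) → (A → B) → (M → I) → (A → C) →
    ((M → J) ∨ (B → C)) →
    (e2 I A + e2 J C + e2 M B ≤ e2 I B + e2 J A + e2 M C ∨
      e2 I A + e2 J C + e2 M B ≤ e2 I C + e2 J A + e2 M B) ∧
    (e2 I A + e2 J C + e2 M B ≤ e2 I B + e2 J A + e2 M C ∨
      e2 I A + e2 J C + e2 M B ≤ e2 I B + e2 J C + e2 M A) := by
  decide

lemma cell_left : ∀ I J M A B C : Bool, (J → I) → (A → B) → ((I → M) ∨ (C → A)) →
    (e2 I C + e2 J B + e2 M A ≤ e2 I B + e2 J A + e2 M C ∨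
      e2 I C + e2 J B + e2 M A ≤ e2 I C + e2 J A + e2 M B) ∧
    (e2 I C + e2 J B + e2 M A ≤ e2 I B + e2 J A + e2 M C ∨
      e2 I C + e2 J B + e2 M A ≤ e2 I B + e2 J C + e2 M A) := by
  decide

lemma cell_both : ∀ I J M A B C : Bool, (J → I) → (A → B) →
    ((I → M) ∨ (M → J) ∨ (C → A) ∨ (B → C)) →
    ((I → M) ∨ (M → I)) → ((J → M) ∨ (M → J)) → ((A → C) ∨ (C → A)) → ((B → C) ∨ (C → B)) →
    (e2 I C + e2 J B + e2 M A ≤ e2 I B + e2 J A + e2 M C ∨
      e2 I C + e2 J B + e2 M A ≤ e2 I C + e2 J A + e2 M B ∨
      e2 I C + e2 J B + e2 M A ≤ e2 I B + e2 J C + e2 M A) ∧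
    (e2 I A + e2 J C + e2 M B ≤ e2 I B + e2 J A + e2 M C ∨
      e2 I A + e2 J C + e2 M B ≤ e2 I C + e2 J A + e2 M B ∨
      e2 I A + e2 J C + e2 M B ≤ e2 I B + e2 J C + e2 M A) := by
  intro I J M A B C
  cases I <;> cases J <;> cases M <;> cases A <;> cases B <;> cases C <;> simp [e2]

/-- local comparison at a third position `m` -/
lemma local_key (x v : Perm (Fin n)) {i j m : Fin n} (hij : i < j) (hx : x i < x j)
    (hmi : m ≠ i) (hmj : m ≠ j) (hm : ¬ (i < m ∧ m < j ∧ x i < x m ∧ x m < x j))
    (hy : le (x * swap i j) v) :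
    ((le (x * swap i j * swap i m) v ∨ le (x * swap i j * swap j m) v) →
      (le (x * swap i m) v ∨ le (x * swap j m) v)) ∧
    ((le (x * swap i j * swap i m) v ∧ le (x * swap i j * swap j m) v) →
      (le (x * swap i m) v ∧ le (x * swap j m) v)) := by
  have hij' : i ≠ j := ne_of_lt hij
  have h1 : (i : ℕ) < (j : ℕ) := hij
  have h2 : (x i : ℕ) < (x j : ℕ) := hx
  have h3 : (m : ℕ) ≠ (i : ℕ) := fun h => hmi (Fin.ext h)
  have h4 : (m : ℕ) ≠ (j : ℕ) := fun h => hmj (Fin.ext h)
  have h5 : (x m : ℕ) ≠ (x i : ℕ) := fun h => hmi (x.injective (Fin.ext h))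
  have h6 : (x m : ℕ) ≠ (x j : ℕ) := fun h => hmj (x.injective (Fin.ext h))
  have h7 : ¬ ((i : ℕ) < (m : ℕ) ∧ (m : ℕ) < (j : ℕ) ∧ (x i : ℕ) < (x m : ℕ) ∧
    (x m : ℕ) < (x j : ℕ)) := hm
  -- rank values of the five elements
  have key : ∀ a b : ℕ, ∃ R : ℕ,
      rk (x * swap i j) a b = R + e2 (decide ((i : ℕ) < a)) (decide (b ≤ (x j : ℕ)))
        + e2 (decide ((j : ℕ) < a)) (decide (b ≤ (x i : ℕ)))
        + e2 (decide ((m : ℕ) < a)) (decide (b ≤ (x m : ℕ))) ∧
      rk (x * swap i m) a b = R + e2 (decide ((i : ℕ) < a)) (decide (b ≤ (x m : ℕ)))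
        + e2 (decide ((j : ℕ) < a)) (decide (b ≤ (x j : ℕ)))
        + e2 (decide ((m : ℕ) < a)) (decide (b ≤ (x i : ℕ))) ∧
      rk (x * swap j m) a b = R + e2 (decide ((i : ℕ) < a)) (decide (b ≤ (x i : ℕ)))
        + e2 (decide ((j : ℕ) < a)) (decide (b ≤ (x m : ℕ)))
        + e2 (decide ((m : ℕ) < a)) (decide (b ≤ (x j : ℕ))) ∧
      rk (x * swap i j * swap i m) a b =
        R + e2 (decide ((i : ℕ) < a)) (decide (b ≤ (x m : ℕ)))
        + e2 (decide ((j : ℕ) < a)) (decide (b ≤ (x i : ℕ)))
        + e2 (decide ((m : ℕ) < a)) (decide (b ≤ (x j : ℕ))) ∧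
      rk (x * swap i j * swap j m) a b =
        R + e2 (decide ((i : ℕ) < a)) (decide (b ≤ (x j : ℕ)))
        + e2 (decide ((j : ℕ) < a)) (decide (b ≤ (x m : ℕ)))
        + e2 (decide ((m : ℕ) < a)) (decide (b ≤ (x i : ℕ))) := by
    intro a b
    obtain ⟨R, hR⟩ := rk_three_e x hij' hmi.symm hmj.symm a b
    refine ⟨R, hR _ _ _ _ ?_ ?_ ?_ ?_, hR _ _ _ _ ?_ ?_ ?_ ?_, hR _ _ _ _ ?_ ?_ ?_ ?_,
      hR _ _ _ _ ?_ ?_ ?_ ?_, hR _ _ _ _ ?_ ?_ ?_ ?_⟩
    · intro k k1 k2 k3; simp [swap_apply_of_ne_of_ne k1 k2]
    · simp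
    · simp
    · simp [swap_apply_of_ne_of_ne hmi hmj]
    · intro k k1 k2 k3; simp [swap_apply_of_ne_of_ne k1 k3]
    · simp
    · simp [swap_apply_of_ne_of_ne hij'.symm hmj.symm]
    · simp
    · intro k k1 k2 k3; simp [swap_apply_of_ne_of_ne k2 k3]
    · simp [swap_apply_of_ne_of_ne hij' hmi.symm]
    · simp
    · simp
    · intro k k1 k2 k3; simp [swap_apply_of_ne_of_ne k1 k3, swap_apply_of_ne_of_ne k1 k2]
    · simp [swap_apply_of_ne_of_ne hmi hmj]
    · simp [swap_apply_of_ne_of_ne hij'.symm hmj.symm]
    · simp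
    · intro k k1 k2 k3; simp [swap_apply_of_ne_of_ne k2 k3, swap_apply_of_ne_of_ne k1 k2]
    · simp [swap_apply_of_ne_of_ne hij' hmi.symm]
    · simp [swap_apply_of_ne_of_ne hmi hmj]
    · simp
  have b1 : ∀ a : ℕ, (decide ((j : ℕ) < a) = true → decide ((i : ℕ) < a) = true) := by
    intro a; simp only [decide_eq_true_eq]; omega
  have b2 : ∀ b : ℕ, (decide (b ≤ (x i : ℕ)) = true → decide (b ≤ (x j : ℕ)) = true) := by
    intro b; simp only [decide_eq_true_eq]; omega
  constructor
  · intro hor
    by_cases hcase : (i : ℕ) < (m : ℕ) ∧ (x i : ℕ) < (x m : ℕ)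
    · right
      intro a b
      obtain ⟨R, r0, r1, r2, r3, r4⟩ := key a b
      have hc := cell_right (decide ((i : ℕ) < a)) (decide ((j : ℕ) < a)) (decide ((m : ℕ) < a))
        (decide (b ≤ (x i : ℕ))) (decide (b ≤ (x j : ℕ))) (decide (b ≤ (x m : ℕ)))
        (b1 a) (b2 b) (by simp only [decide_eq_true_eq]; omega)
        (by simp only [decide_eq_true_eq]; omega) (by
          simp only [decide_eq_true_eq]
          by_cases h8 : (m : ℕ) < (j : ℕ)
          · right; omega
          · left; omega)
      have hy' := hy a b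
      rcases hor with hor | hor
      · have := hor a b
        have := hc.1
        omega
      · have := hor a b
        have := hc.2
        omega
    · left
      intro a b
      obtain ⟨R, r0, r1, r2, r3, r4⟩ := key a b
      have hc := cell_left (decide ((i : ℕ) < a)) (decide ((j : ℕ) < a)) (decide ((m : ℕ) < a))
        (decide (b ≤ (x i : ℕ))) (decide (b ≤ (x j : ℕ))) (decide (b ≤ (x m : ℕ)))
        (b1 a) (b2 b) (by
          simp only [decide_eq_true_eq]
          by_cases h8 : (m : ℕ) < (i : ℕ)
          · left; omega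
          · right; omega)
      have hy' := hy a b
      rcases hor with hor | hor
      · have := hor a b
        have := hc.1
        omega
      · have := hor a b
        have := hc.2
        omega
  · rintro ⟨ha, hb⟩
    have hboth : ∀ a b : ℕ, rk (x * swap i m) a b ≤ rk v a b ∧ rk (x * swap j m) a b ≤ rk v a b := by
      intro a b
      obtain ⟨R, r0, r1, r2, r3, r4⟩ := key a b
      have hc := cell_both (decide ((i : ℕ) < a)) (decide ((j : ℕ) < a)) (decide ((m : ℕ) < a))
        (decide (b ≤ (x i : ℕ))) (decide (b ≤ (x j : ℕ))) (decide (b ≤ (x m : ℕ)))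
        (b1 a) (b2 b) (by
          simp only [decide_eq_true_eq]
          by_cases h8 : (m : ℕ) < (i : ℕ)
          · left; omega
          · by_cases h9 : (j : ℕ) < (m : ℕ)
            · right; left; omega
            · by_cases h10 : (x m : ℕ) < (x i : ℕ)
              · right; right; left; omega
              · right; right; right; omega)
        (by simp only [decide_eq_true_eq]; omega) (by simp only [decide_eq_true_eq]; omega)
        (by simp only [decide_eq_true_eq]; omega) (by simp only [decide_eq_true_eq]; omega)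
      have h8 := hy a b
      have h9 := ha a b
      have h10 := hb a b
      omega
    exact ⟨fun a b => (hboth a b).1, fun a b => (hboth a b).2⟩

open Classical in
/-- `1` if `z * swap p q ≤ v`, else `0` -/
noncomputable def gg (v z : Perm (Fin n)) (p q : Fin n) : ℕ :=
  if le (z * swap p q) v then 1 else 0

lemma gg_comm (v z : Perm (Fin n)) (p q : Fin n) : gg v z p q = gg v z q p := by
  unfold gg; rw [swap_comm]

lemma gg_third (x v : Perm (Fin n)) {i j m : Fin n} (hij : i < j) (hx : x i < x j)
    (hin : inner x i j = 0) (hmi : m ≠ i) (hmj : m ≠ j) (hy : le (x * swap i j) v) :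
    gg v (x * swap i j) i m + gg v (x * swap i j) j m ≤ gg v x i m + gg v x j m := by
  have hm : ¬ (i < m ∧ m < j ∧ x i < x m ∧ x m < x j) := by
    unfold inner at hin
    rw [Finset.card_eq_zero, Finset.filter_eq_empty_iff] at hin
    exact hin (mem_univ m)
  obtain ⟨h1, h2⟩ := local_key x v hij hx hmi hmj hm hy
  unfold gg
  by_cases a1 : le (x * swap i j * swap i m) v <;> by_cases a2 : le (x * swap i j * swap j m) v <;>
    by_cases a3 : le (x * swap i m) v <;> by_cases a4 : le (x * swap j m) v <;>
    simp_all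

lemma gg_disjoint (x v : Perm (Fin n)) {i j p q : Fin n} (hij : i < j) (hx : x i < x j)
    (hpi : p ≠ i) (hpj : p ≠ j) (hqi : q ≠ i) (hqj : q ≠ j) :
    gg v (x * swap i j) p q ≤ gg v x p q := by
  have hcomm : x * swap i j * swap p q = x * swap p q * swap i j := by
    rw [mul_assoc, mul_assoc]
    congr 1
    ext k
    have hd : (swap i j).Disjoint (swap p q) := by
      intro k
      by_cases h1 : k = i
      · right; subst h1; exact swap_apply_of_ne_of_ne hpi.symm hqi.symm
      · by_cases h2 : k = j
        · right; subst h2; exact swap_apply_of_ne_of_ne hpj.symm hqj.symm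
        · left; exact swap_apply_of_ne_of_ne h1 h2
    rw [hd.commute.eq]
  have hle : le (x * swap p q) (x * swap i j * swap p q) := by
    rw [hcomm]
    apply le_swap _ hij
    simpa [swap_apply_of_ne_of_ne hpi.symm hqi.symm, swap_apply_of_ne_of_ne hpj.symm hqj.symm]
      using hx
  unfold gg
  by_cases h1 : le (x * swap i j * swap p q) v
  · have h2 : le (x * swap p q) v := le_trans' hle h1
    simp [h1, h2]
  · simp [h1]

/-- the number of ordered pairs `(p,q)`, `p ≠ q`, with `z * swap p q ≤ v` -/
noncomputable def FF (z v : Perm (Fin n)) : ℕ :=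
  ∑ p : Fin n × Fin n, if p.1 = p.2 then 0 else gg v z p.1 p.2

lemma semi (x v : Perm (Fin n)) {i j : Fin n} (hij : i < j) (hx : x i < x j)
    (hin : inner x i j = 0) (hy : le (x * swap i j) v) :
    FF (x * swap i j) v ≤ FF x v := by
  have hij' : i ≠ j := ne_of_lt hij
  have hinv : ∀ z : Perm (Fin n), ∑ p : Fin n × Fin n,
      (if swap i j p.1 = swap i j p.2 then 0 else gg v z (swap i j p.1) (swap i j p.2)) = FF z v := by
    intro z
    unfold FF
    exact Equiv.sum_comp (Equiv.prodCongr (swap i j) (swap i j))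
      (fun p : Fin n × Fin n => if p.1 = p.2 then 0 else gg v z p.1 p.2)
  have hxv : le x v := le_trans' (le_swap x hij hx) hy
  have hyy : x * swap i j * swap i j = x := by rw [mul_assoc, swap_mul_self, mul_one]
  have key : ∀ p : Fin n × Fin n,
      (if p.1 = p.2 then 0 else gg v (x * swap i j) p.1 p.2) +
        (if swap i j p.1 = swap i j p.2 then 0 else
          gg v (x * swap i j) (swap i j p.1) (swap i j p.2)) ≤
      (if p.1 = p.2 then 0 else gg v x p.1 p.2) +
        (if swap i j p.1 = swap i j p.2 then 0 else gg v x (swap i j p.1) (swap i j p.2)) := by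
    rintro ⟨p, q⟩
    simp only [EmbeddingLike.apply_eq_iff_eq]
    by_cases hpq : p = q
    · simp [hpq]
    simp only [hpq, if_false]
    have gxy : gg v x i j = 1 := by unfold gg; simp [hy]
    have gyx : gg v (x * swap i j) i j = 1 := by unfold gg; rw [hyy]; simp [hxv]
    by_cases hpi : p = i
    · subst hpi
      by_cases hqj : q = j
      · subst hqj
        simp only [swap_apply_left, swap_apply_right]
        rw [gg_comm v _ q p, gg_comm v x q p]
        omega
      · have hq : swap p j q = q := swap_apply_of_ne_of_ne (Ne.symm hpq) hqj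
        simp only [swap_apply_left, hq]
        exact gg_third x v hij hx hin (Ne.symm hpq) hqj hy
    · by_cases hpj : p = j
      · subst hpj
        by_cases hqi : q = i
        · subst hqi
          simp only [swap_apply_left, swap_apply_right]
          rw [gg_comm v _ p q, gg_comm v x p q]
          omega
        · have hq : swap i p q = q := swap_apply_of_ne_of_ne hqi (Ne.symm hpq)
          simp only [swap_apply_right, hq]
          have := gg_third x v hij hx hin hqi (Ne.symm hpq) hy
          omega
      · have hp : swap i j p = p := swap_apply_of_ne_of_ne hpi hpj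
        by_cases hqi : q = i
        · subst hqi
          simp only [swap_apply_left, hp]
          have := gg_third x v hij hx hin hpi hpj hy
          rw [gg_comm v _ p q, gg_comm v _ p j, gg_comm v x p q, gg_comm v x p j]
          exact this
        · by_cases hqj : q = j
          · subst hqj
            simp only [swap_apply_right, hp]
            have := gg_third x v hij hx hin hpi hpj hy
            rw [gg_comm v _ p q, gg_comm v _ p i, gg_comm v x p q, gg_comm v x p i]
            omega
          · have hq : swap i j q = q := swap_apply_of_ne_of_ne hqi hqj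
            rw [hp, hq]
            have := gg_disjoint x v hij hx hpi hpj hqi hqj
            omega
  have hsum := Finset.sum_le_sum (fun p (_ : p ∈ (univ : Finset (Fin n × Fin n))) => key p)
  rw [Finset.sum_add_distrib, Finset.sum_add_distrib, hinv, hinv] at hsum
  unfold FF at hsum ⊢
  omega

lemma swap_inj {p q p' q' : Fin n} (h : p < q) (h' : p' < q') (hs : swap p q = swap p' q') :
    p = p' ∧ q = q' := by
  have h1 : swap p' q' p = q := by rw [← hs]; simp
  by_cases hp : p = p'
  · subst hp
    rw [swap_apply_left] at h1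
    exact ⟨rfl, h1.symm⟩
  · by_cases hq : p = q'
    · subst hq
      rw [swap_apply_right] at h1
      subst h1
      exact absurd h' (not_lt.2 (le_of_lt h))
    · rw [swap_apply_of_ne_of_ne hp hq] at h1
      exact absurd h1 (ne_of_lt h)

open Classical in
/-- upper neighbours of `x` in the Bruhat graph that lie below `v` -/
noncomputable def up (x v : Perm (Fin n)) : Finset (Perm (Fin n)) :=
  univ.filter fun y => edge x y ∧ le y v

open Classical in
/-- the same, as a set of pairs of positions -/
noncomputable def upPairs (x v : Perm (Fin n)) : Finset (Fin n × Fin n) :=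
  univ.filter fun p : Fin n × Fin n => p.1 < p.2 ∧ x p.1 < x p.2 ∧ le (x * swap p.1 p.2) v

lemma card_up (x v : Perm (Fin n)) : (upPairs x v).card = (up x v).card := by
  classical
  apply Finset.card_bij (fun p _ => x * swap p.1 p.2)
  · intro p hp
    simp only [upPairs, mem_filter, mem_univ, true_and] at hp
    simp only [up, mem_filter, mem_univ, true_and]
    exact ⟨⟨p.1, p.2, hp.1, hp.2.1, rfl⟩, hp.2.2⟩
  · intro p hp q hq hpq
    simp only [upPairs, mem_filter, mem_univ, true_and] at hp hq
    have := swap_inj hp.1 hq.1 (mul_left_cancel hpq)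
    exact Prod.ext this.1 this.2
  · intro y hy
    simp only [up, mem_filter, mem_univ, true_and] at hy
    obtain ⟨⟨i, j, hij, hx, rfl⟩, hv⟩ := hy
    refine ⟨(i, j), ?_, rfl⟩
    simp only [upPairs, mem_filter, mem_univ, true_and]
    exact ⟨hij, hx, hv⟩

lemma FF_eq {x v : Perm (Fin n)} (h : le x v) : FF x v = 2 * ((up x v).card + inv x) := by
  classical
  have h1 : FF x v = (∑ p : Fin n × Fin n, if p.1 < p.2 then gg v x p.1 p.2 else 0) +
      ∑ p : Fin n × Fin n, if p.2 < p.1 then gg v x p.2 p.1 else 0 := by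
    unfold FF
    rw [← Finset.sum_add_distrib]
    apply Finset.sum_congr rfl
    rintro ⟨p, q⟩ -
    simp only
    rcases lt_trichotomy p q with h1 | h1 | h1
    · have h2 : p ≠ q := ne_of_lt h1
      have h3 : ¬ q < p := not_lt.2 (le_of_lt h1)
      simp [h1, h2, h3]
    · simp [h1]
    · have h2 : p ≠ q := ne_of_gt h1
      have h3 : ¬ p < q := not_lt.2 (le_of_lt h1)
      simp [h1, h2, h3, gg_comm v x p q]
  have h2 : (∑ p : Fin n × Fin n, if p.2 < p.1 then gg v x p.2 p.1 else 0) =
      ∑ p : Fin n × Fin n, if p.1 < p.2 then gg v x p.1 p.2 else 0 :=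
    Equiv.sum_comp (Equiv.prodComm (Fin n) (Fin n))
      (fun p : Fin n × Fin n => if p.1 < p.2 then gg v x p.1 p.2 else 0)
  have h3 : (∑ p : Fin n × Fin n, if p.1 < p.2 then gg v x p.1 p.2 else 0) =
      (upPairs x v).card + inv x := by
    unfold upPairs inv
    rw [Finset.card_filter, Finset.card_filter, ← Finset.sum_add_distrib]
    apply Finset.sum_congr rfl
    rintro ⟨p, q⟩ -
    simp only
    by_cases hpq : p < q
    · rcases lt_trichotomy (x p) (x q) with hx | hx | hx
      · have hx' : ¬ x q < x p := not_lt.2 (le_of_lt hx)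
        simp [hpq, hx, hx', gg]
      · exact absurd (x.injective hx) (ne_of_lt hpq)
      · have hx' : ¬ x p < x q := not_lt.2 (le_of_lt hx)
        have hle : le (x * swap p q) v := le_trans' (swap_of_gt x hpq hx).1 h
        simp [hpq, hx, hx', gg, hle]
    · simp [hpq]
  rw [h1, h2, h3, card_up]
  ring

lemma inner_eq_zero {x : Perm (Fin n)} {i j : Fin n} (hij : i < j) (hx : x i < x j)
    (h : inv (x * swap i j) = inv x + 1) : inner x i j = 0 := by
  have := inv_swap x hij hx
  omega

lemma up_mono {x y v : Perm (Fin n)} (h : le x y) (hv : le y v) :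
    (up y v).card + inv y ≤ (up x v).card + inv x := by
  have hc := chain_of_le h
  clear h
  induction hc using Relation.ReflTransGen.head_induction_on with
  | refl => exact le_rfl
  | head h1 h2 ih =>
    rename_i a c
    refine ih.trans ?_
    obtain ⟨⟨i, j, hij, hx, rfl⟩, hi⟩ := h1
    have hcv : le (a * swap i j) v := by
      refine le_trans' ?_ hv
      clear ih
      induction h2 with
      | refl => exact le_refl' _
      | tail _ hbc ih => exact le_trans' (ih (le_trans' (edge_le hbc.1) hv)) (edge_le hbc.1)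
    have hav : le a v := le_trans' (le_swap a hij hx) hcv
    have := semi a v hij hx (inner_eq_zero hij hx hi) hcv
    rw [FF_eq hav, FF_eq hcv] at this
    omega

lemma up_self (v : Perm (Fin n)) : up v v = ∅ := by
  classical
  unfold up
  rw [Finset.filter_eq_empty_iff]
  rintro y - ⟨h1, h2⟩
  have := edge_inv h1
  have := inv_le_of_le h2
  omega

/-- Deodhar's inequality in type A -/
lemma deodhar {x v : Perm (Fin n)} (h : le x v) : inv v ≤ (up x v).card + inv x := by
  have := up_mono h (le_refl' v)
  rw [up_self] at this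
  simpa using this

open Classical in
/-- covers of `x` below `z` -/
noncomputable def At (x z : Perm (Fin n)) : Finset (Perm (Fin n)) :=
  univ.filter fun a => cov x a ∧ le a z

open Classical in
/-- non-covering upper neighbours of `x` below `z` -/
noncomputable def Nc (x z : Perm (Fin n)) : Finset (Perm (Fin n)) :=
  univ.filter fun y => (edge x y ∧ inv y ≠ inv x + 1) ∧ le y z

open Classical in
/-- elements covered by `v` and above `x` -/
noncomputable def Co (x v : Perm (Fin n)) : Finset (Perm (Fin n)) :=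
  univ.filter fun c => cov c v ∧ le x c

lemma mem_At {x z a : Perm (Fin n)} : a ∈ At x z ↔ cov x a ∧ le a z := by simp [At]
lemma mem_Nc {x z a : Perm (Fin n)} :
    a ∈ Nc x z ↔ (edge x a ∧ inv a ≠ inv x + 1) ∧ le a z := by simp [Nc]
lemma mem_Co {x v c : Perm (Fin n)} : c ∈ Co x v ↔ cov c v ∧ le x c := by simp [Co]
lemma mem_up {x v c : Perm (Fin n)} : c ∈ up x v ↔ edge x c ∧ le c v := by simp [up]

lemma card_up_eq (x z : Perm (Fin n)) : (up x z).card = (At x z).card + (Nc x z).card := by
  classical
  rw [← Finset.card_union_of_disjoint]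
  · congr 1
    ext y
    simp only [mem_up, mem_union, mem_At, mem_Nc, cov]
    by_cases h : inv y = inv x + 1 <;> simp [h]
  · rw [Finset.disjoint_left]
    intro y h1 h2
    rw [mem_At] at h1
    rw [mem_Nc] at h2
    exact h2.1.2 h1.1.2

lemma sum_At_eq (x v : Perm (Fin n)) :
    ∑ c ∈ Co x v, (At x c).card = ∑ a ∈ At x v, (Co a v).card := by
  classical
  have h := Finset.sum_card_bipartiteAbove_eq_sum_card_bipartiteBelow
    (s := Co x v) (t := At x v) (fun c a => le a c)
  have h1 : ∀ c ∈ Co x v, (At x c) = Finset.bipartiteAbove (fun c a => le a c) (At x v) c := by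
    intro c hc
    ext a
    simp only [Finset.mem_bipartiteAbove, mem_At]
    rw [mem_Co] at hc
    constructor
    · rintro ⟨h1, h2⟩
      exact ⟨⟨h1, le_trans' h2 (edge_le hc.1.1)⟩, h2⟩
    · rintro ⟨⟨h1, _⟩, h2⟩
      exact ⟨h1, h2⟩
  have h2 : ∀ a ∈ At x v, (Co a v) = Finset.bipartiteBelow (fun c a => le a c) (Co x v) a := by
    intro a ha
    ext c
    simp only [Finset.mem_bipartiteBelow, mem_Co]
    rw [mem_At] at ha
    constructor
    · rintro ⟨h1, h2⟩
      exact ⟨⟨h1, le_trans' (edge_le ha.1.1) h2⟩, h2⟩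
    · rintro ⟨⟨h1, _⟩, h2⟩
      exact ⟨h1, h2⟩
  rw [Finset.sum_congr rfl (fun c hc => by rw [h1 c hc]), h]
  exact Finset.sum_congr rfl (fun a ha => by rw [h2 a ha])

lemma sum_Nc_eq (x v : Perm (Fin n)) :
    ∑ c ∈ Co x v, (Nc x c).card = ∑ a ∈ Nc x v, (Co a v).card := by
  classical
  have h := Finset.sum_card_bipartiteAbove_eq_sum_card_bipartiteBelow
    (s := Co x v) (t := Nc x v) (fun c a => le a c)
  have h1 : ∀ c ∈ Co x v, (Nc x c) = Finset.bipartiteAbove (fun c a => le a c) (Nc x v) c := by
    intro c hc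
    ext a
    simp only [Finset.mem_bipartiteAbove, mem_Nc]
    rw [mem_Co] at hc
    constructor
    · rintro ⟨h1, h2⟩
      exact ⟨⟨h1, le_trans' h2 (edge_le hc.1.1)⟩, h2⟩
    · rintro ⟨⟨h1, _⟩, h2⟩
      exact ⟨h1, h2⟩
  have h2 : ∀ a ∈ Nc x v, (Co a v) = Finset.bipartiteBelow (fun c a => le a c) (Co x v) a := by
    intro a ha
    ext c
    simp only [Finset.mem_bipartiteBelow, mem_Co]
    rw [mem_Nc] at ha
    constructor
    · rintro ⟨h1, h2⟩
      exact ⟨⟨h1, le_trans' (edge_le ha.1.1) h2⟩, h2⟩
    · rintro ⟨⟨h1, _⟩, h2⟩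
      exact ⟨h1, h2⟩
  rw [Finset.sum_congr rfl (fun c hc => by rw [h1 c hc]), h]
  exact Finset.sum_congr rfl (fun a ha => by rw [h2 a ha])

lemma Co_self (v : Perm (Fin n)) : Co v v = ∅ := by
  apply Finset.eq_empty_of_forall_notMem
  intro c hc
  rw [mem_Co] at hc
  have := inv_le_of_le hc.2
  have := hc.1.2
  omega

lemma Nc_mono {x y z : Perm (Fin n)} (h : le y z) : Nc x y ⊆ Nc x z := by
  intro a ha
  rw [mem_Nc] at ha ⊢
  exact ⟨ha.1, le_trans' ha.2 h⟩

/-- the counting lemma -/
lemma counting (v : Perm (Fin n)) : ∀ (k : ℕ) (x : Perm (Fin n)), le x v → inv v = inv x + k →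
    (up x v).card = k →
    (Co x v).card ≤ k ∧ ((Co x v).card = k → Nc x v = ∅ ∧
      (∀ a ∈ At x v, (Co a v).card + 1 = k) ∧ (∀ c ∈ Co x v, (At x c).card + 1 = k)) := by
  intro k
  induction k using Nat.strong_induction_on with
  | _ k ih =>
  intro x hxv hk hup
  rcases Nat.lt_or_ge k 2 with hk2 | hk2
  · rcases Nat.lt_or_ge k 1 with hk1 | hk1
    · -- k = 0
      have hk0 : k = 0 := by omega
      subst hk0
      have hx : x = v := eq_of_le_of_inv hxv (by omega)
      subst hx
      rw [Co_self]
      refine ⟨le_rfl, fun _ => ⟨?_, ?_, ?_⟩⟩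
      · have := up_self x
        apply Finset.eq_empty_of_forall_notMem
        intro y hy
        have h2 : y ∈ up x x := by
          rw [mem_up]; rw [mem_Nc] at hy; exact ⟨hy.1.1, hy.2⟩
        rw [this] at h2
        exact absurd h2 (Finset.notMem_empty y)
      · intro a ha
        rw [mem_At] at ha
        have := inv_le_of_le ha.2
        have := ha.1.2
        omega
      · intro c hc
        exact absurd hc (Finset.notMem_empty c)
    · -- k = 1
      have hk1' : k = 1 := by omega
      subst hk1'
      have hCo : Co x v ⊆ {x} := by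
        intro c hc
        rw [mem_Co] at hc
        rw [Finset.mem_singleton]
        exact (eq_of_le_of_inv hc.2 (by have := hc.1.2; omega)).symm
      have hcard : (Co x v).card ≤ 1 := by
        have := Finset.card_le_card hCo
        simpa using this
      refine ⟨hcard, fun _ => ⟨?_, ?_, ?_⟩⟩
      · apply Finset.eq_empty_of_forall_notMem
        intro y hy
        rw [mem_Nc] at hy
        have h1 := edge_inv hy.1.1
        have h2 := inv_le_of_le hy.2
        have := hy.1.2
        omega
      · intro a ha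
        rw [mem_At] at ha
        have : a = v := eq_of_le_of_inv ha.2 (by have := ha.1.2; omega)
        subst this
        rw [Co_self]; rfl
      · intro c hc
        have := hCo hc
        rw [Finset.mem_singleton] at this
        subst this
        have : At c c = ∅ := by
          apply Finset.eq_empty_of_forall_notMem
          intro y hy
          rw [mem_At] at hy
          have h1 := edge_inv hy.1.1
          have h2 := inv_le_of_le hy.2
          omega
        rw [this]; rfl
  · -- k ≥ 2
    obtain ⟨l, rfl⟩ : ∃ l, k = l + 2 := ⟨k - 2, by omega⟩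
    have hA : ∀ a ∈ At x v, (Co a v).card ≤ l + 1 := by
      intro a ha
      rw [mem_At] at ha
      have h1 := up_mono (edge_le ha.1.1) ha.2
      have h2 := deodhar ha.2
      have h3 := ha.1.2
      exact (ih (l + 1) (by omega) a ha.2 (by omega) (by omega)).1
    have hN : ∀ y ∈ Nc x v, (Co y v).card ≤ l := by
      intro y hy
      rw [mem_Nc] at hy
      have h1 := up_mono (edge_le hy.1.1) hy.2
      have h2 := deodhar hy.2
      have h3 := hy.1.2
      have h4 := edge_inv hy.1.1
      have h5 := inv_le_of_le hy.2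
      have := (ih (inv v - inv y) (by omega) y hy.2 (by omega) (by omega)).1
      omega
    have hD : ∀ c ∈ Co x v, l + 1 ≤ (At x c).card + (Nc x c).card := by
      intro c hc
      rw [mem_Co] at hc
      have h1 := deodhar hc.2
      rw [card_up_eq] at h1
      have h2 := hc.1.2
      omega
    have s1 := sum_At_eq x v
    have s2 := sum_Nc_eq x v
    have s3 : (Co x v).card * (l + 1) ≤ ∑ c ∈ Co x v, ((At x c).card + (Nc x c).card) := by
      have := Finset.card_nsmul_le_sum (Co x v) (fun c => (At x c).card + (Nc x c).card) (l + 1) hD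
      simpa using this
    rw [Finset.sum_add_distrib, s1, s2] at s3
    have s4 : ∑ a ∈ At x v, (Co a v).card ≤ (At x v).card * (l + 1) := by
      have := Finset.sum_le_card_nsmul (At x v) (fun a => (Co a v).card) (l + 1) hA
      simpa using this
    have s5 : ∑ a ∈ Nc x v, (Co a v).card ≤ (Nc x v).card * l := by
      have := Finset.sum_le_card_nsmul (Nc x v) (fun a => (Co a v).card) l hN
      simpa using this
    have s6 : (At x v).card + (Nc x v).card = l + 2 := by
      rw [← card_up_eq]; exact hup
    generalize hh : (Co x v).card = h at *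
    generalize hA' : (At x v).card = A at *
    generalize hN' : (Nc x v).card = N at *
    have s7 : h * (l + 1) + N ≤ (l + 2) * (l + 1) := by
      have e1 : A * (l + 1) + N * l + N = (A + N) * (l + 1) := by ring
      rw [s6] at e1
      omega
    have hle : h ≤ l + 2 := by
      by_contra hc
      have h3 : l + 3 ≤ h := by omega
      have : (l + 3) * (l + 1) ≤ h * (l + 1) := Nat.mul_le_mul_right _ h3
      nlinarith
    refine ⟨hle, fun heq => ?_⟩
    subst heq
    have hN0 : N = 0 := by omega
    subst hN0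
    have hA2 : A = l + 2 := by omega
    subst hA2
    have hNe : Nc x v = ∅ := Finset.card_eq_zero.1 hN'
    have s8 : ∑ a ∈ Nc x v, (Co a v).card = 0 := by rw [hNe]; simp
    rw [s8] at s3
    refine ⟨hNe, ?_, ?_⟩
    · intro a ha
      by_contra hc
      have hlt : (Co a v).card < l + 1 := by
        have := hA a ha
        omega
      have : ∑ a ∈ At x v, (Co a v).card < ∑ a ∈ At x v, (l + 1) :=
        Finset.sum_lt_sum hA ⟨a, ha, hlt⟩
      rw [Finset.sum_const, hA'] at this
      simp only [smul_eq_mul] at this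
      omega
    · intro c hc
      have hNc : ∀ c ∈ Co x v, (Nc x c).card = 0 := by
        intro c hc
        rw [mem_Co] at hc
        have := Nc_mono (x := x) (edge_le hc.1.1)
        rw [hNe] at this
        rw [Finset.card_eq_zero]
        exact Finset.subset_empty.1 this
      have hD' : ∀ c ∈ Co x v, l + 1 ≤ (At x c).card := by
        intro c hc
        have := hD c hc
        rw [hNc c hc] at this
        omega
      by_contra hcc
      have hlt : l + 1 < (At x c).card := by
        have := hD' c hc
        omega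
      have : ∑ a ∈ Co x v, (l + 1) < ∑ a ∈ Co x v, (At x a).card :=
        Finset.sum_lt_sum hD' ⟨c, hc, hlt⟩
      rw [Finset.sum_const, hh, s1] at this
      simp only [smul_eq_mul] at this
      omega

/-- the numerical condition on an interval -/
def Good (x v : Perm (Fin n)) : Prop :=
  le x v ∧ (up x v).card + inv x = inv v ∧ (Co x v).card + inv x = inv v

lemma good_facts {x v : Perm (Fin n)} (h : Good x v) :
    Nc x v = ∅ ∧ (∀ a ∈ At x v, Good a v) ∧ (At x v).card + inv x = inv v ∧
      (∀ c ∈ Co x v, (At x c).card + 1 + inv x = inv v) := by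
  obtain ⟨h1, h2, h3⟩ := h
  have hle := inv_le_of_le h1
  obtain ⟨_, hc⟩ := counting v (inv v - inv x) x h1 (by omega) (by omega)
  obtain ⟨c1, c2, c3⟩ := hc (by omega)
  refine ⟨c1, ?_, ?_, ?_⟩
  · intro a ha
    have h4 := c2 a ha
    rw [mem_At] at ha
    have h5 := up_mono (edge_le ha.1.1) ha.2
    have h6 := deodhar ha.2
    have h7 := ha.1.2
    exact ⟨ha.2, by omega, by omega⟩
  · have := card_up_eq x v
    rw [c1] at this
    simp at this
    omega
  · intro c hc
    have := c3 c hc
    omega

lemma good_all {x y v : Perm (Fin n)} (h : Good x v) (hxy : le x y) (hyv : le y v) :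
    Good y v := by
  have hc := chain_of_le hxy
  clear hxy
  induction hc using Relation.ReflTransGen.head_induction_on with
  | refl => exact h
  | head h1 h2 ih =>
    rename_i a c
    apply ih
    have hcv : le c v := by
      refine le_trans' ?_ hyv
      clear ih
      induction h2 with
      | refl => exact le_refl' _
      | tail _ hbc ih => exact le_trans' (ih (le_trans' (edge_le hbc.1) hyv)) (edge_le hbc.1)
    exact (good_facts h).2.1 c (mem_At.2 ⟨h1, hcv⟩)

lemma Co_anti {x y v : Perm (Fin n)} (h : le x y) : Co y v ⊆ Co x v := by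
  intro c hc
  rw [mem_Co] at hc ⊢
  exact ⟨hc.1, le_trans' h hc.2⟩

lemma surj_Co (v : Perm (Fin n)) : ∀ (k : ℕ) (x : Perm (Fin n)), Good x v → inv v = inv x + k →
    ∀ T ⊆ Co x v, ∃ y, le x y ∧ le y v ∧ Co y v = T := by
  classical
  intro k
  induction k with
  | zero =>
    intro x hx hk T hT
    have : x = v := eq_of_le_of_inv hx.1 (by omega)
    subst this
    rw [Co_self] at hT
    refine ⟨x, le_refl' x, le_refl' x, ?_⟩
    rw [Co_self, Finset.subset_empty.1 hT]
  | succ k ih =>
    intro x hx hk T hT
    by_cases hTe : T = Co x v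
    · exact ⟨x, le_refl' x, hx.1, hTe.symm⟩
    · obtain ⟨c, hc, hcT⟩ : ∃ c ∈ Co x v, c ∉ T := by
        by_contra hcon
        push Not at hcon
        exact hTe (Finset.Subset.antisymm hT hcon)
      obtain ⟨f1, f2, f3, f4⟩ := good_facts hx
      have h4 := f4 c hc
      obtain ⟨a, ha, hac⟩ : ∃ a ∈ At x v, a ∉ At x c := by
        by_contra hcon
        push Not at hcon
        have := Finset.card_le_card (show At x v ⊆ At x c from hcon)
        omega
      have hga := f2 a ha
      have ha' := ha
      rw [mem_At] at ha'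
      have hi := ha'.1.2
      have hsub : Co a v ⊆ (Co x v).erase c := by
        intro d hd
        rw [Finset.mem_erase]
        refine ⟨?_, Co_anti (edge_le ha'.1.1) hd⟩
        rintro rfl
        rw [mem_Co] at hd
        exact hac (mem_At.2 ⟨ha'.1, hd.2⟩)
      have hcard : (Co a v).card = ((Co x v).erase c).card := by
        rw [Finset.card_erase_of_mem hc]
        have h5 := hga.2.2
        have h6 := hx.2.2
        omega
      have heq : Co a v = (Co x v).erase c := Finset.eq_of_subset_of_card_le hsub (by omega)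
      obtain ⟨y, hy1, hy2, hy3⟩ := ih a hga (by omega) T (by
        rw [heq]
        intro t ht
        rw [Finset.mem_erase]
        exact ⟨fun e => hcT (e ▸ ht), hT ht⟩)
      exact ⟨y, le_trans' (edge_le ha'.1.1) hy1, hy2, hy3⟩

/-! ### duality -/

/-- reversing the values -/
def rv (x : Perm (Fin n)) : Perm (Fin n) := Fin.revPerm * x

lemma rv_apply (x : Perm (Fin n)) (i : Fin n) : rv x i = Fin.rev (x i) := rfl

lemma rv_rv (x : Perm (Fin n)) : rv (rv x) = x := by
  ext i
  simp [rv_apply]

lemma edge_rv {x y : Perm (Fin n)} (h : edge x y) : edge (rv y) (rv x) := by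
  obtain ⟨i, j, hij, hx, rfl⟩ := h
  refine ⟨i, j, hij, ?_, ?_⟩
  · rw [rv_apply, rv_apply, Fin.rev_lt_rev]
    simpa using hx
  · unfold rv
    rw [← mul_assoc, mul_assoc _ (swap i j) (swap i j), swap_mul_self, mul_one]

lemma le_rv {x y : Perm (Fin n)} (h : le x y) : le (rv y) (rv x) := by
  have hc := chain_of_le h
  clear h
  induction hc with
  | refl => exact le_refl' _
  | tail _ hbc ih => exact le_trans' (edge_le (edge_rv hbc.1)) ih

lemma inv_rv (x : Perm (Fin n)) : inv x + inv (rv x) =
    (univ.filter fun p : Fin n × Fin n => p.1 < p.2).card := by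
  unfold inv
  rw [Finset.card_filter, Finset.card_filter, Finset.card_filter, ← Finset.sum_add_distrib]
  apply Finset.sum_congr rfl
  rintro ⟨p, q⟩ -
  simp only [rv_apply, Fin.rev_lt_rev]
  by_cases hpq : p < q
  · rcases lt_trichotomy (x p) (x q) with hx | hx | hx
    · have hx' : ¬ x q < x p := not_lt.2 (le_of_lt hx)
      simp [hpq, hx, hx']
    · exact absurd (x.injective hx) (ne_of_lt hpq)
    · have hx' : ¬ x p < x q := not_lt.2 (le_of_lt hx)
      simp [hpq, hx, hx']
  · simp [hpq]

open Classical in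
/-- lower neighbours -/
noncomputable def dn (x y : Perm (Fin n)) : Finset (Perm (Fin n)) :=
  univ.filter fun z => edge z y ∧ le x z

lemma card_dn (x y : Perm (Fin n)) : (dn x y).card = (up (rv y) (rv x)).card := by
  classical
  apply Finset.card_bij (fun z _ => rv z)
  · intro z hz
    simp only [dn, mem_filter, mem_univ, true_and] at hz
    rw [mem_up]
    exact ⟨edge_rv hz.1, le_rv hz.2⟩
  · intro z _ w _ h
    have := congrArg rv h
    rwa [rv_rv, rv_rv] at this
  · intro w hw
    rw [mem_up] at hw
    refine ⟨rv w, ?_, rv_rv w⟩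
    simp only [dn, mem_filter, mem_univ, true_and]
    have h1 := edge_rv hw.1
    have h2 := le_rv hw.2
    rw [rv_rv] at h1 h2
    exact ⟨h1, h2⟩

lemma dual_deodhar {x y : Perm (Fin n)} (h : le x y) : inv y ≤ (dn x y).card + inv x := by
  have h1 := deodhar (le_rv h)
  have h2 := inv_rv x
  have h3 := inv_rv y
  rw [card_dn]
  omega

/-! ### level sizes -/

open Classical in
/-- elements of `[u,v]` at distance `i` from the top -/
noncomputable def Lv (u v : Perm (Fin n)) (i : ℕ) : Finset (Perm (Fin n)) :=
  univ.filter fun x => le u x ∧ le x v ∧ inv v = inv x + i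

lemma mem_Lv {u v x : Perm (Fin n)} {i : ℕ} :
    x ∈ Lv u v i ↔ le u x ∧ le x v ∧ inv v = inv x + i := by simp [Lv]

lemma level_step {u v : Perm (Fin n)} (hg : Good u v) {k j : ℕ} (hk : inv v = inv u + k)
    (hj : j < k) : (k - j) * (Lv u v j).card ≤ (j + 1) * (Lv u v (j + 1)).card := by
  classical
  have h := Finset.sum_card_bipartiteAbove_eq_sum_card_bipartiteBelow
    (s := Lv u v j) (t := Lv u v (j + 1)) (fun y x => cov x y)
  have h1 : ∀ y ∈ Lv u v j, k - j ≤
      (Finset.bipartiteAbove (fun y x => cov x y) (Lv u v (j + 1)) y).card := by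
    intro y hy
    rw [mem_Lv] at hy
    have hd := dual_deodhar hy.1
    have hsub : dn u y ⊆ Finset.bipartiteAbove (fun y x => cov x y) (Lv u v (j + 1)) y := by
      intro z hz
      simp only [dn, mem_filter, mem_univ, true_and] at hz
      have hzv : le z v := le_trans' (edge_le hz.1) hy.2.1
      have hgz := good_all hg hz.2 hzv
      have hcov : inv y = inv z + 1 := by
        by_contra hne
        have : y ∈ Nc z v := mem_Nc.2 ⟨⟨hz.1, hne⟩, hy.2.1⟩
        rw [(good_facts hgz).1] at this
        exact absurd this (Finset.notMem_empty y)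
      rw [Finset.mem_bipartiteAbove, mem_Lv]
      exact ⟨⟨hz.2, hzv, by have := hy.2.2; omega⟩, hz.1, hcov⟩
    have := Finset.card_le_card hsub
    have := hy.2.2
    omega
  have h2 : ∀ x ∈ Lv u v (j + 1),
      (Finset.bipartiteBelow (fun y x => cov x y) (Lv u v j) x).card = j + 1 := by
    intro x hx
    rw [mem_Lv] at hx
    have hgx := good_all hg hx.1 hx.2.1
    have hat := (good_facts hgx).2.2.1
    have heq : Finset.bipartiteBelow (fun y x => cov x y) (Lv u v j) x = At x v := by
      ext y
      rw [Finset.mem_bipartiteBelow, mem_Lv, mem_At]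
      constructor
      · rintro ⟨⟨_, a2, _⟩, a4⟩
        exact ⟨a4, a2⟩
      · rintro ⟨a1, a2⟩
        refine ⟨⟨le_trans' hx.1 (edge_le a1.1), a2, ?_⟩, a1⟩
        have := a1.2
        have := hx.2.2
        omega
    rw [heq]
    have := hx.2.2
    omega
  have h3 := Finset.card_nsmul_le_sum _ _ _ h1
  rw [h, Finset.sum_congr rfl h2, Finset.sum_const] at h3
  simp only [smul_eq_mul] at h3
  rw [mul_comm (k - j), mul_comm (j + 1)]
  exact h3

lemma level_le {u v : Perm (Fin n)} (hg : Good u v) {k : ℕ} (hk : inv v = inv u + k) :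
    ∀ d j : ℕ, j + d = k → (Lv u v j).card ≤ k.choose j := by
  intro d
  induction d with
  | zero =>
    intro j hj
    have hj' : j = k := by omega
    subst hj'
    rw [Nat.choose_self]
    rw [Finset.card_le_one]
    intro a ha b hb
    rw [mem_Lv] at ha hb
    have h1 := eq_of_le_of_inv ha.1 (by have := ha.2.2; omega)
    have h2 := eq_of_le_of_inv hb.1 (by have := hb.2.2; omega)
    rw [← h1, ← h2]
  | succ d ih =>
    intro j hj
    have hjk : j < k := by omega
    have h1 := level_step hg hk hjk
    have h2 := ih (j + 1) (by omega)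
    have h3 := Nat.choose_succ_right_eq k j
    have h4 : (k - j) * (Lv u v j).card ≤ (k - j) * k.choose j := by
      calc (k - j) * (Lv u v j).card ≤ (j + 1) * (Lv u v (j + 1)).card := h1
        _ ≤ (j + 1) * k.choose (j + 1) := Nat.mul_le_mul_left _ h2
        _ = (k - j) * k.choose j := by rw [mul_comm, h3, mul_comm]
    exact Nat.le_of_mul_le_mul_left h4 (by omega)

lemma inj_Co {u v : Perm (Fin n)} (hg : Good u v) {x y : Perm (Fin n)}
    (hux : le u x) (hxv : le x v) (huy : le u y) (hyv : le y v) (h : Co x v = Co y v) :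
    x = y := by
  classical
  have hgx := good_all hg hux hxv
  have hgy := good_all hg huy hyv
  have huv := inv_le_of_le hg.1
  have e1 := hgx.2.2
  have e2 := hgy.2.2
  rw [h] at e1
  have hx : x ∈ Lv u v (Co y v).card := mem_Lv.2 ⟨hux, hxv, by omega⟩
  have hy : y ∈ Lv u v (Co y v).card := mem_Lv.2 ⟨huy, hyv, by omega⟩
  have hcardle : (Co y v).card ≤ inv v - inv u := by
    have := inv_le_of_le huy
    omega
  have hlev := level_le hg (k := inv v - inv u) (by omega)
    (inv v - inv u - (Co y v).card) (Co y v).card (by omega)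
  have hcu : (Co u v).card = inv v - inv u := by
    have := hg.2.2
    omega
  have hinj := Finset.inj_on_of_surj_on_of_card_le (s := Lv u v (Co y v).card)
    (t := (Co u v).powersetCard (Co y v).card) (fun a _ => Co a v)
    (by
      intro a ha
      rw [mem_Lv] at ha
      rw [Finset.mem_powersetCard]
      refine ⟨Co_anti ha.1, ?_⟩
      have := (good_all hg ha.1 ha.2.1).2.2
      have := ha.2.2
      omega)
    (by
      intro T hT
      rw [Finset.mem_powersetCard] at hT
      obtain ⟨z, hz1, hz2, hz3⟩ := surj_Co v (inv v - inv u) u hg (by omega) T hT.1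
      refine ⟨z, ?_, hz3⟩
      rw [mem_Lv]
      refine ⟨hz1, hz2, ?_⟩
      have := (good_all hg hz1 hz2).2.2
      rw [hz3, hT.2] at this
      omega)
    (by rw [Finset.card_powersetCard, hcu]; exact hlev)
  exact hinj hx hy h

lemma le_iff_Co {u v : Perm (Fin n)} (hg : Good u v) {x y : Perm (Fin n)}
    (hux : le u x) (hxv : le x v) (huy : le u y) (hyv : le y v) :
    le x y ↔ Co y v ⊆ Co x v := by
  constructor
  · exact Co_anti
  · intro h
    have hgx := good_all hg hux hxv
    have hle := inv_le_of_le hxv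
    obtain ⟨z, hz1, hz2, hz3⟩ := surj_Co v (inv v - inv x) x hgx (by omega) _ h
    have : z = y := inj_Co hg (le_trans' hux hz1) hz2 huy hyv hz3
    rwa [this] at hz1

/-- The interval `[u,v]` is isomorphic to the lattice of subsets of a finite set. -/
def IsBoolean (u v : Perm (Fin n)) : Prop :=
  ∃ (m : ℕ) (e : {x : Perm (Fin n) // Bruhat u x ∧ Bruhat x v} ≃ Finset (Fin m)),
    ∀ x y, Bruhat x.1 y.1 ↔ e x ⊆ e y

/-- sufficiency -/
lemma isBoolean_of_good {u v : Perm (Fin n)} (hg : Good u v) : IsBoolean u v := by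
  classical
  let S := {c : Perm (Fin n) // c ∈ Co u v}
  -- the map `x ↦ {c : ¬ x ≤ c}`
  let f : {x : Perm (Fin n) // Bruhat u x ∧ Bruhat x v} → Finset S :=
    fun x => univ.filter fun c => ¬ le x.1 c.1
  have hmem : ∀ (x : {x : Perm (Fin n) // Bruhat u x ∧ Bruhat x v}) (c : S),
      c ∈ f x ↔ c.1 ∉ Co x.1 v := by
    intro x c
    have hc := mem_Co.1 c.2
    simp only [f, mem_filter, mem_univ, true_and, mem_Co, hc.1]
  have hord : ∀ x y : {x : Perm (Fin n) // Bruhat u x ∧ Bruhat x v},
      Bruhat x.1 y.1 ↔ f x ⊆ f y := by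
    intro x y
    have hx1 := (bruhat_iff_le _ _).1 x.2.1
    have hx2 := (bruhat_iff_le _ _).1 x.2.2
    have hy1 := (bruhat_iff_le _ _).1 y.2.1
    have hy2 := (bruhat_iff_le _ _).1 y.2.2
    rw [bruhat_iff_le, le_iff_Co hg hx1 hx2 hy1 hy2]
    constructor
    · intro h c hc
      rw [hmem] at hc ⊢
      exact fun h' => hc (h h')
    · intro h c hc
      have hcu : c ∈ Co u v := Co_anti hy1 hc
      by_contra hn
      have h1 : (⟨c, hcu⟩ : S) ∈ f x := (hmem x ⟨c, hcu⟩).2 hn
      exact (hmem y ⟨c, hcu⟩).1 (h h1) hc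
  have hinj : Function.Injective f := by
    intro x y hxy
    have hx1 := (bruhat_iff_le _ _).1 x.2.1
    have hx2 := (bruhat_iff_le _ _).1 x.2.2
    have hy1 := (bruhat_iff_le _ _).1 y.2.1
    have hy2 := (bruhat_iff_le _ _).1 y.2.2
    apply Subtype.ext
    apply inj_Co hg hx1 hx2 hy1 hy2
    ext c
    constructor
    · intro hc
      have hcu : c ∈ Co u v := Co_anti hx1 hc
      by_contra hn
      have h1 : (⟨c, hcu⟩ : S) ∈ f y := (hmem y ⟨c, hcu⟩).2 hn
      rw [← hxy] at h1
      exact (hmem x ⟨c, hcu⟩).1 h1 hc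
    · intro hc
      have hcu : c ∈ Co u v := Co_anti hy1 hc
      by_contra hn
      have h1 : (⟨c, hcu⟩ : S) ∈ f x := (hmem x ⟨c, hcu⟩).2 hn
      rw [hxy] at h1
      exact (hmem y ⟨c, hcu⟩).1 h1 hc
  have hsurj : Function.Surjective f := by
    intro T
    have hle := inv_le_of_le hg.1
    obtain ⟨y, hy1, hy2, hy3⟩ := surj_Co v (inv v - inv u) u hg (by omega)
      ((Co u v).filter fun c => ∀ h : c ∈ Co u v, (⟨c, h⟩ : S) ∉ T) (Finset.filter_subset _ _)
    refine ⟨⟨y, (bruhat_iff_le _ _).2 hy1, (bruhat_iff_le _ _).2 hy2⟩, ?_⟩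
    ext c
    rw [hmem]
    simp only [hy3, mem_filter, not_and, not_forall, not_not]
    constructor
    · intro h
      obtain ⟨_, h2⟩ := h c.2
      exact h2
    · intro h _
      exact ⟨c.2, h⟩
  let e1 : {x : Perm (Fin n) // Bruhat u x ∧ Bruhat x v} ≃ Finset S :=
    Equiv.ofBijective f ⟨hinj, hsurj⟩
  refine ⟨Fintype.card S, e1.trans (Fintype.equivFin S).finsetCongr, ?_⟩
  intro x y
  rw [hord x y]
  simp only [Equiv.trans_apply, Equiv.finsetCongr_apply, Finset.map_subset_map]
  rfl

/-- last cover of a chain -/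
lemma exists_cov_below {u x : Perm (Fin n)} (h : le u x) (hne : u ≠ x) :
    ∃ z, cov z x ∧ le u z := by
  have hc := chain_of_le h
  rcases Relation.ReflTransGen.cases_tail hc with h1 | ⟨z, h1, h2⟩
  · exact absurd h1.symm hne
  · refine ⟨z, h2, ?_⟩
    clear h hne hc h2
    induction h1 with
    | refl => exact le_refl' _
    | tail _ hbc ih => exact le_trans' ih (edge_le hbc.1)

lemma cov_of_le_inv {x y : Perm (Fin n)} (h : le x y) (hi : inv y = inv x + 1) : cov x y := by
  obtain ⟨z, hz, hzy⟩ := exists_cov h (fun e => by rw [e] at hi; omega)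
  have : z = y := eq_of_le_of_inv hzy (by have := hz.2; omega)
  rwa [this] at hz

/-- The six elements of a full `S_3`. -/
lemma six (u : Perm (Fin n)) {i k j : Fin n} (hik : i < k) (hkj : k < j) (h1 : u i < u k)
    (h2 : u k < u j) :
    ∃ p1 p2 q1 q2 : Perm (Fin n), le u p1 ∧ le u p2 ∧ le p1 q1 ∧ le p1 q2 ∧ le p2 q1 ∧ le p2 q2 ∧
      le q1 (u * swap i j) ∧ le q2 (u * swap i j) ∧
      inv (u * swap i j) + inv p1 + inv p2 = inv u + inv q1 + inv q2 + 1 ∧
      (∀ z, le z p1 → le z p2 → le z u) ∧ (∀ z, le q1 z → le q2 z → le (u * swap i j) z) := by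
  have hij : i < j := hik.trans hkj
  have h3 : u i < u j := h1.trans h2
  have nik : i ≠ k := ne_of_lt hik
  have nkj : k ≠ j := ne_of_lt hkj
  have nij : i ≠ j := ne_of_lt hij
  have a1 : (u * swap i k) i = u k := by simp
  have a2 : (u * swap i k) k = u i := by simp
  have a3 : (u * swap i k) j = u j := by simp [swap_apply_of_ne_of_ne nij.symm nkj.symm]
  have b1 : (u * swap k j) i = u i := by simp [swap_apply_of_ne_of_ne nik nij]
  have b2 : (u * swap k j) k = u j := by simp
  have b3 : (u * swap k j) j = u k := by simp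
  have c1 : (u * swap i k * swap k j) i = u k := by
    simp [swap_apply_of_ne_of_ne nik nij]
  have c2 : (u * swap i k * swap k j) k = u j := by
    simp [swap_apply_of_ne_of_ne nij.symm nkj.symm]
  have c3 : (u * swap i k * swap k j) j = u i := by simp
  have d1 : (u * swap k j * swap i k) i = u j := by simp
  have d2 : (u * swap k j * swap i k) k = u i := by
    simp [swap_apply_of_ne_of_ne nik nij]
  have d3 : (u * swap k j * swap i k) j = u k := by
    simp [swap_apply_of_ne_of_ne nij.symm nkj.symm]
  -- product relations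
  have r1 : u * swap i k * swap i j = u * swap k j * swap i k := by
    rw [mul_assoc, mul_assoc]; congr 1
    ext l
    by_cases e1 : l = i
    · subst e1; simp [swap_apply_of_ne_of_ne nij.symm nkj.symm]
    · by_cases e2 : l = k
      · subst e2; simp [swap_apply_of_ne_of_ne nik nij, swap_apply_of_ne_of_ne nik.symm nkj]
      · by_cases e3 : l = j
        · subst e3
          simp [swap_apply_of_ne_of_ne nij.symm nkj.symm]
        · simp [swap_apply_of_ne_of_ne e1 e2, swap_apply_of_ne_of_ne e1 e3,
            swap_apply_of_ne_of_ne e2 e3]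
  have r2 : u * swap k j * swap i j = u * swap i k * swap k j := by
    rw [mul_assoc, mul_assoc]; congr 1
    ext l
    by_cases e1 : l = i
    · subst e1; simp [swap_apply_of_ne_of_ne nik nij]
    · by_cases e2 : l = k
      · subst e2
        simp [swap_apply_of_ne_of_ne nik.symm nkj, swap_apply_of_ne_of_ne nij.symm nkj.symm]
      · by_cases e3 : l = j
        · subst e3; simp [swap_apply_of_ne_of_ne nik nij]
        · simp [swap_apply_of_ne_of_ne e1 e2, swap_apply_of_ne_of_ne e1 e3,
            swap_apply_of_ne_of_ne e2 e3]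
  have r3 : u * swap i k * swap k j * swap i k = u * swap i j := by
    rw [← r2, mul_assoc (u * swap k j), mul_assoc]; congr 1
    ext l
    by_cases e1 : l = i
    · subst e1
      simp [swap_apply_of_ne_of_ne nik.symm nkj]
    · by_cases e2 : l = k
      · subst e2; simp [swap_apply_of_ne_of_ne nik.symm nkj]
      · by_cases e3 : l = j
        · subst e3
          simp [swap_apply_of_ne_of_ne nij.symm nkj.symm, swap_apply_of_ne_of_ne nik nij]
        · simp [swap_apply_of_ne_of_ne e1 e2, swap_apply_of_ne_of_ne e1 e3,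
            swap_apply_of_ne_of_ne e2 e3]
  have r4 : u * swap k j * swap i k * swap k j = u * swap i j := by
    rw [← r1]
    rw [mul_assoc, mul_assoc]; congr 1
    ext l
    by_cases e1 : l = i
    · subst e1
      simp [swap_apply_of_ne_of_ne nik nij, swap_apply_of_ne_of_ne nij.symm nkj.symm]
    · by_cases e2 : l = k
      · subst e2; simp [swap_apply_of_ne_of_ne nik.symm nkj]
      · by_cases e3 : l = j
        · subst e3
          simp [swap_apply_of_ne_of_ne nik.symm nkj]
        · simp [swap_apply_of_ne_of_ne e1 e2, swap_apply_of_ne_of_ne e1 e3,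
            swap_apply_of_ne_of_ne e2 e3]
  refine ⟨u * swap i k, u * swap k j, u * swap i k * swap k j, u * swap k j * swap i k,
    le_swap u hik h1, le_swap u hkj h2, ?_, ?_, ?_, ?_, ?_, ?_, ?_, ?_, ?_⟩
  · exact le_swap _ hkj (by rw [a2, a3]; exact h3)
  · rw [← r1]; exact le_swap _ hij (by rw [a1, a3]; exact h2)
  · rw [← r2]; exact le_swap _ hij (by rw [b1, b3]; exact h1)
  · exact le_swap _ hik (by rw [b1, b2]; exact h3)
  · have := le_swap (u * swap i k * swap k j) hik (by rw [c1, c2]; exact h2)
    rwa [r3] at this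
  · have := le_swap (u * swap k j * swap i k) hkj (by rw [d2, d3]; exact h1)
    rwa [r4] at this
  · -- lengths
    have l1 := inv_swap u hij h3
    have l2 := inv_swap (u * swap i k) hkj (by rw [a2, a3]; exact h3)
    have l3 := inv_swap (u * swap k j) hik (by rw [b1, b2]; exact h3)
    have l4 : inner u i j = inner (u * swap i k) k j + inner (u * swap k j) i k + 1 := by
      unfold inner
      rw [a2, a3, b1, b2]
      have hone : (1 : ℕ) = ∑ l : Fin n, if l = k then 1 else 0 := by simp
      rw [hone, Finset.card_filter, Finset.card_filter, Finset.card_filter,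
        ← Finset.sum_add_distrib, ← Finset.sum_add_distrib]
      apply Finset.sum_congr rfl
      intro l _
      by_cases e2 : l = k
      · subst e2
        simp [hik, hkj, h1, h2]
      · by_cases e1 : l = i
        · subst e1
          have : ¬ k < l := not_lt.2 (le_of_lt hik)
          simp [nik, this]
        · by_cases e3 : l = j
          · subst e3
            have : ¬ l < k := not_lt.2 (le_of_lt hkj)
            simp [this, e2]
          · have hv1 : (u * swap i k) l = u l := by simp [swap_apply_of_ne_of_ne e1 e2]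
            have hv2 : (u * swap k j) l = u l := by simp [swap_apply_of_ne_of_ne e2 e3]
            rw [hv1, hv2]
            simp only [e2, if_false, add_zero]
            rcases lt_or_gt_of_ne e2 with hl | hl
            · have hl' : ¬ k < l := not_lt.2 (le_of_lt hl)
              have hl'' : l < j := hl.trans hkj
              simp [hl, hl', hl'']
            · have hl' : ¬ l < k := not_lt.2 (le_of_lt hl)
              have hl'' : i < l := hik.trans hl
              simp [hl, hl', hl'']
    omega
  · intro z hz1 hz2 a b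
    have m1 := hz1 a b
    have m2 := hz2 a b
    rw [rk_swap u hik h1] at m1
    rw [rk_swap u hkj h2] at m2
    split_ifs at m1 m2 <;> omega
  · intro z hz1 hz2 a b
    have m1 := hz1 a b
    have m2 := hz2 a b
    rw [← r2, rk_swap (u * swap k j) hij (by rw [b1, b3]; exact h1), rk_swap u hkj h2, b1, b3] at m1
    rw [← r1, rk_swap (u * swap i k) hij (by rw [a1, a3]; exact h2), rk_swap u hik h1, a1, a3] at m2
    rw [rk_swap u hij h3]
    split_ifs at m1 m2 ⊢ <;> omega

/-- necessity -/
lemma good_of_isBoolean {u v : Perm (Fin n)} (huv : le u v) (hb : IsBoolean u v) : Good u v := by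
  classical
  obtain ⟨m, e, he⟩ := hb
  -- restate the isomorphism in terms of `le`
  have hmk : ∀ x : Perm (Fin n), le u x → le x v → (Bruhat u x ∧ Bruhat x v) :=
    fun x h1 h2 => ⟨(bruhat_iff_le _ _).2 h1, (bruhat_iff_le _ _).2 h2⟩
  have hle : ∀ x y, le x.1 y.1 ↔ e x ⊆ e y := fun x y => by rw [← bruhat_iff_le]; exact he x y
  have hl1 : ∀ x : {x : Perm (Fin n) // Bruhat u x ∧ Bruhat x v}, le u x.1 :=
    fun x => (bruhat_iff_le _ _).1 x.2.1
  have hl2 : ∀ x : {x : Perm (Fin n) // Bruhat u x ∧ Bruhat x v}, le x.1 v :=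
    fun x => (bruhat_iff_le _ _).1 x.2.2
  let U : {x : Perm (Fin n) // Bruhat u x ∧ Bruhat x v} := ⟨u, hmk u (le_refl' u) huv⟩
  let V : {x : Perm (Fin n) // Bruhat u x ∧ Bruhat x v} := ⟨v, hmk v huv (le_refl' v)⟩
  have hU : e U = ∅ := by
    have h1 : e U ⊆ e (e.symm ∅) := (hle U (e.symm ∅)).1 (hl1 _)
    rw [Equiv.apply_symm_apply] at h1
    exact Finset.subset_empty.1 h1
  have hV : e V = univ := by
    have h1 : e (e.symm univ) ⊆ e V := (hle (e.symm univ) V).1 (hl2 _)
    rw [Equiv.apply_symm_apply] at h1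
    exact Finset.eq_univ_iff_forall.2 (fun x => h1 (mem_univ x))
  -- rank function
  have hrank : ∀ (N : ℕ) (x : {x : Perm (Fin n) // Bruhat u x ∧ Bruhat x v}),
      inv x.1 = N → (e x).card + inv u = inv x.1 := by
    intro N
    induction N using Nat.strong_induction_on with
    | _ N ih =>
    intro x hN
    by_cases hux : u = x.1
    · have : x = U := Subtype.ext hux.symm
      rw [this, hU]; simp [U]
    · obtain ⟨z, hz, huz⟩ := exists_cov_below (hl1 x) hux
      have hzx : le z x.1 := edge_le hz.1
      let Z : {x : Perm (Fin n) // Bruhat u x ∧ Bruhat x v} :=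
        ⟨z, hmk z huz (le_trans' hzx (hl2 x))⟩
      have hZi := ih (inv z) (by have := hz.2; omega) Z rfl
      have hsub : e Z ⊆ e x := (hle Z x).1 hzx
      have hne : e Z ≠ e x := by
        intro h
        have h1 : Z = x := e.injective h
        have h2 : z = x.1 := congrArg Subtype.val h1
        have := hz.2
        rw [h2] at this
        omega
      obtain ⟨t, ht, htZ⟩ : ∃ t ∈ e x, t ∉ e Z := by
        by_contra hcon
        push Not at hcon
        exact hne (Finset.Subset.antisymm hsub hcon)
      have hins : insert t (e Z) ⊆ e x := Finset.insert_subset ht hsub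
      have hyx : le (e.symm (insert t (e Z))).1 x.1 := by
        rw [hle, Equiv.apply_symm_apply]; exact hins
      have hzy : le z (e.symm (insert t (e Z))).1 := by
        have := (hle Z (e.symm (insert t (e Z)))).2 (by
          rw [Equiv.apply_symm_apply]; exact Finset.subset_insert _ _)
        exact this
      have hcardins : (insert t (e Z)).card = (e Z).card + 1 := Finset.card_insert_of_notMem htZ
      have hi1 := inv_le_of_le hyx
      have hi2 := inv_le_of_le hzy
      have hz2 := hz.2
      have hyeq : (e.symm (insert t (e Z))).1 = x.1 := by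
        by_contra hcon
        have h3 := inv_lt_of_le_ne hyx hcon
        have h4 : z = (e.symm (insert t (e Z))).1 := eq_of_le_of_inv hzy (by omega)
        have h5 : Z = e.symm (insert t (e Z)) := Subtype.ext h4
        have h6 : e Z = insert t (e Z) := by
          conv_lhs => rw [h5]
          rw [Equiv.apply_symm_apply]
        exact htZ (h6 ▸ Finset.mem_insert_self _ _)
      have hyeq' : e.symm (insert t (e Z)) = x := Subtype.ext hyeq
      have hex : e x = insert t (e Z) := by rw [← hyeq', Equiv.apply_symm_apply]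
      rw [hex, hcardins]
      have : (e Z).card + inv u = inv z := hZi
      omega
  have hrank' : ∀ x : {x : Perm (Fin n) // Bruhat u x ∧ Bruhat x v},
      (e x).card + inv u = inv x.1 := fun x => hrank _ x rfl
  have hm : m + inv u = inv v := by
    have := hrank' V
    rw [hV] at this
    simpa [V] using this
  -- no full `S_3` at the bottom
  have hNc : Nc u v = ∅ := by
    apply Finset.eq_empty_of_forall_notMem
    intro y hy
    rw [mem_Nc] at hy
    obtain ⟨⟨⟨i, j, hij, hx, rfl⟩, hne⟩, hyv⟩ := hy
    have hl := inv_swap u hij hx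
    have hin : (inner u i j) ≠ 0 := by omega
    unfold inner at hin
    rw [Ne, Finset.card_eq_zero, ← Ne, ← Finset.nonempty_iff_ne_empty] at hin
    obtain ⟨k, hk⟩ := hin
    simp only [mem_filter, mem_univ, true_and] at hk
    obtain ⟨hik, hkj, h1, h2⟩ := hk
    obtain ⟨p1, p2, q1, q2, a1, a2, b1, b2, b3, b4, c1, c2, hlen, hmeet, hjoin⟩ :=
      six u hik hkj h1 h2
    let P1 : {x : Perm (Fin n) // Bruhat u x ∧ Bruhat x v} :=
      ⟨p1, hmk p1 a1 (le_trans' b1 (le_trans' c1 hyv))⟩
    let P2 : {x : Perm (Fin n) // Bruhat u x ∧ Bruhat x v} :=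
      ⟨p2, hmk p2 a2 (le_trans' b3 (le_trans' c1 hyv))⟩
    let Q1 : {x : Perm (Fin n) // Bruhat u x ∧ Bruhat x v} :=
      ⟨q1, hmk q1 (le_trans' a1 b1) (le_trans' c1 hyv)⟩
    let Q2 : {x : Perm (Fin n) // Bruhat u x ∧ Bruhat x v} :=
      ⟨q2, hmk q2 (le_trans' a1 b2) (le_trans' c2 hyv)⟩
    let W : {x : Perm (Fin n) // Bruhat u x ∧ Bruhat x v} :=
      ⟨u * swap i j, hmk _ (le_trans' a1 (le_trans' b1 c1)) hyv⟩
    have hP : e P1 ∩ e P2 = ∅ := by
      have hz1 : le (e.symm (e P1 ∩ e P2)).1 p1 := (hle _ P1).2 (by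
        rw [Equiv.apply_symm_apply]; exact Finset.inter_subset_left)
      have hz2 : le (e.symm (e P1 ∩ e P2)).1 p2 := (hle _ P2).2 (by
        rw [Equiv.apply_symm_apply]; exact Finset.inter_subset_right)
      have hz3 : le (e.symm (e P1 ∩ e P2)).1 U.1 := hmeet _ hz1 hz2
      have := (hle _ U).1 hz3
      rw [Equiv.apply_symm_apply, hU] at this
      exact Finset.subset_empty.1 this
    have hQ : e W ⊆ e Q1 ∪ e Q2 := by
      have hz1 : le q1 (e.symm (e Q1 ∪ e Q2)).1 := (hle Q1 _).2 (by
        rw [Equiv.apply_symm_apply]; exact Finset.subset_union_left)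
      have hz2 : le q2 (e.symm (e Q1 ∪ e Q2)).1 := (hle Q2 _).2 (by
        rw [Equiv.apply_symm_apply]; exact Finset.subset_union_right)
      have hz3 := (hle W _).1 (hjoin _ hz1 hz2)
      rwa [Equiv.apply_symm_apply] at hz3
    have hPQ : e P1 ∪ e P2 ⊆ e Q1 ∩ e Q2 := by
      apply Finset.union_subset
      · exact Finset.subset_inter ((hle P1 Q1).1 b1) ((hle P1 Q2).1 b2)
      · exact Finset.subset_inter ((hle P2 Q1).1 b3) ((hle P2 Q2).1 b4)
    have n1 := Finset.card_union_add_card_inter (e P1) (e P2)
    have n2 := Finset.card_union_add_card_inter (e Q1) (e Q2)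
    have n3 := Finset.card_le_card hPQ
    have n4 := Finset.card_le_card hQ
    rw [hP, Finset.card_empty] at n1
    have m1 : (e P1).card + inv u = inv p1 := hrank' P1
    have m2 : (e P2).card + inv u = inv p2 := hrank' P2
    have m3 : (e Q1).card + inv u = inv q1 := hrank' Q1
    have m4 : (e Q2).card + inv u = inv q2 := hrank' Q2
    have m5 : (e W).card + inv u = inv (u * swap i j) := hrank' W
    omega
  -- atoms
  have hAt : (At u v).card = m := by
    have : (At u v).card = (univ : Finset (Fin m)).card := by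
      symm
      apply Finset.card_bij (fun t _ => (e.symm {t}).1)
      · intro t _
        rw [mem_At]
        refine ⟨cov_of_le_inv (hl1 _) ?_, hl2 _⟩
        have := hrank' (e.symm {t})
        rw [Equiv.apply_symm_apply, Finset.card_singleton] at this
        omega
      · intro t _ s _ h
        have := e.symm.injective (Subtype.ext h)
        exact Finset.singleton_injective this
      · intro a ha
        rw [mem_At] at ha
        let A : {x : Perm (Fin n) // Bruhat u x ∧ Bruhat x v} := ⟨a, hmk a (edge_le ha.1.1) ha.2⟩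
        have h1 : (e A).card + inv u = inv a := hrank' A
        have h2 := ha.1.2
        obtain ⟨t, ht⟩ := Finset.card_eq_one.1 (show (e A).card = 1 by omega)
        refine ⟨t, mem_univ t, ?_⟩
        rw [← ht, Equiv.symm_apply_apply]
    rw [this]; simp
  have hCo : (Co u v).card = m := by
    have : (Co u v).card = (univ : Finset (Fin m)).card := by
      symm
      apply Finset.card_bij (fun t _ => (e.symm (univ.erase t)).1)
      · intro t _
        rw [mem_Co]
        refine ⟨cov_of_le_inv (hl2 _) ?_, hl1 _⟩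
        have := hrank' (e.symm (univ.erase t))
        rw [Equiv.apply_symm_apply, Finset.card_erase_of_mem (mem_univ t), Finset.card_univ,
          Fintype.card_fin] at this
        have hpos : 0 < m := Fin.pos t
        omega
      · intro t _ s _ h
        have h1 := e.symm.injective (Subtype.ext h)
        by_contra hne
        have h2 : t ∈ (univ : Finset (Fin m)).erase s := Finset.mem_erase.2 ⟨hne, mem_univ t⟩
        rw [← h1] at h2
        exact (Finset.notMem_erase t _) h2
      · intro c hc
        rw [mem_Co] at hc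
        let C : {x : Perm (Fin n) // Bruhat u x ∧ Bruhat x v} := ⟨c, hmk c hc.2 (edge_le hc.1.1)⟩
        have h1 : (e C).card + inv u = inv c := hrank' C
        have h2 := hc.1.2
        have h3 : ((e C)ᶜ).card = 1 := by
          rw [Finset.card_compl, Fintype.card_fin]
          omega
        obtain ⟨t, ht⟩ := Finset.card_eq_one.1 h3
        refine ⟨t, mem_univ t, ?_⟩
        have h4 : (univ : Finset (Fin m)).erase t = e C := by
          rw [← compl_compl (e C), ht]
          ext s
          simp
        rw [h4, Equiv.symm_apply_apply]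
    rw [this]; simp
  refine ⟨huv, ?_, ?_⟩
  · rw [card_up_eq, hNc, hAt]
    simpa using hm
  · rw [hCo]; exact hm

/-- The number of permutations `u * t` with `t` a transposition and `u < u * t ≤ v`. -/
noncomputable def upDegree (u v : Perm (Fin n)) : ℕ :=
  Set.ncard {x : Perm (Fin n) | (∃ i j : Fin n, x = u * swap i j) ∧ inv u < inv x ∧ Bruhat x v}

/-- The number of elements of `[u,v]` covered by `v`. -/
noncomputable def coatoms (u v : Perm (Fin n)) : ℕ :=
  Set.ncard {x : Perm (Fin n) | Bruhat u x ∧ Bruhat x v ∧ inv v = inv x + 1}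

/-- `r w a b`: the number of positions `k < a` with `w k ≥ b`. -/
def r (w : Perm (Fin n)) (a b : Fin n) : ℕ :=
  (univ.filter fun k : Fin n => k < a ∧ b ≤ w k).card

/-- Pairs of positions `i < j` with `u i < u j` such that `r u < r v` on the whole rectangle
`(i, j] × (u i, u j]`. -/
def upCount (u v : Perm (Fin n)) : ℕ :=
  (univ.filter fun p : Fin n × Fin n => p.1 < p.2 ∧ u p.1 < u p.2 ∧
    ∀ a b : Fin n, p.1 < a → a ≤ p.2 → u p.1 < b → b ≤ u p.2 → r u a b < r v a b).card

/-- Pairs of positions `i < j` with `v j < v i`, with no `k` strictly between `i` and `j` whose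
value lies strictly between `v j` and `v i`, such that `r u < r v` on the whole rectangle
`(i, j] × (v j, v i]`. -/
def downCount (u v : Perm (Fin n)) : ℕ :=
  (univ.filter fun p : Fin n × Fin n => p.1 < p.2 ∧ v p.2 < v p.1 ∧
    (∀ k : Fin n, p.1 < k → k < p.2 → ¬ (v p.2 < v k ∧ v k < v p.1)) ∧
    ∀ a b : Fin n, p.1 < a → a ≤ p.2 → v p.2 < b → b ≤ v p.1 → r u a b < r v a b).card

lemma r_eq (w : Perm (Fin n)) (a b : Fin n) : r w a b = rk w (a : ℕ) (b : ℕ) := rfl

lemma rk_big_a (w : Perm (Fin n)) {a : ℕ} (b : ℕ) (h : n ≤ a) :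
    rk w a b = (univ.filter fun k : Fin n => b ≤ (k : ℕ)).card := by
  unfold rk
  apply Finset.card_bij (fun k _ => w k)
  · intro k hk
    simp only [mem_filter, mem_univ, true_and] at hk ⊢
    exact hk.2
  · intro k _ l _ hkl
    exact w.injective hkl
  · intro k hk
    simp only [mem_filter, mem_univ, true_and] at hk
    refine ⟨w.symm k, ?_, by simp⟩
    simp only [mem_filter, mem_univ, true_and, Equiv.apply_symm_apply]
    exact ⟨lt_of_lt_of_le (w.symm k).2 h, hk⟩

lemma rk_big_b (w : Perm (Fin n)) (a : ℕ) {b : ℕ} (h : n ≤ b) : rk w a b = 0 := by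
  unfold rk
  rw [Finset.card_eq_zero, Finset.filter_eq_empty_iff]
  rintro k - ⟨_, h2⟩
  have := (w k).2
  omega

lemma le_iff_r (u v : Perm (Fin n)) : le u v ↔ ∀ a b : Fin n, r u a b ≤ r v a b := by
  constructor
  · intro h a b
    exact h a b
  · intro h a b
    rcases Nat.lt_or_ge a n with ha | ha
    · rcases Nat.lt_or_ge b n with hb | hb
      · exact h ⟨a, ha⟩ ⟨b, hb⟩
      · rw [rk_big_b u a hb]; exact Nat.zero_le _
    · rw [rk_big_a u b ha, rk_big_a v b ha]

lemma upDegree_eq (u v : Perm (Fin n)) : upDegree u v = (up u v).card := by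
  classical
  unfold upDegree
  rw [← Set.ncard_coe_finset]
  congr 1
  ext x
  simp only [Set.mem_ofPred_eq, Finset.mem_coe, mem_up, bruhat_iff_le, ← bruhat_step_iff]
  constructor
  · rintro ⟨⟨i, j, h1⟩, h2, h3⟩
    exact ⟨⟨i, j, h1, h2⟩, h3⟩
  · rintro ⟨⟨i, j, h1, h2⟩, h3⟩
    exact ⟨⟨i, j, h1⟩, h2, h3⟩

lemma coatoms_eq (u v : Perm (Fin n)) : coatoms u v = (Co u v).card := by
  classical
  unfold coatoms
  rw [← Set.ncard_coe_finset]
  congr 1
  ext x
  simp only [Set.mem_ofPred_eq, Finset.mem_coe, mem_Co, bruhat_iff_le]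
  constructor
  · rintro ⟨h1, h2, h3⟩
    exact ⟨cov_of_le_inv h2 h3, h1⟩
  · rintro ⟨h1, h2⟩
    exact ⟨h2, edge_le h1.1, h1.2⟩

lemma upCount_eq {u v : Perm (Fin n)} (h : le u v) : upCount u v = (up u v).card := by
  classical
  rw [← card_up]
  unfold upCount upPairs
  congr 1
  ext ⟨i, j⟩
  simp only [mem_filter, mem_univ, true_and]
  constructor
  · rintro ⟨h1, h2, h3⟩
    refine ⟨h1, h2, ?_⟩
    intro a b
    rw [rk_swap u h1 h2]
    split_ifs with hc
    · obtain ⟨c1, c2, c3, c4⟩ := hc
      have ha : a < n := lt_of_le_of_lt c2 j.2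
      have hb : b < n := lt_of_le_of_lt c4 (u j).2
      exact h3 ⟨a, ha⟩ ⟨b, hb⟩ c1 c2 c3 c4
    · exact h a b
  · rintro ⟨h1, h2, h3⟩
    refine ⟨h1, h2, ?_⟩
    intro a b c1 c2 c3 c4
    have := h3 a b
    rw [rk_swap u h1 h2, if_pos ⟨c1, c2, c3, c4⟩] at this
    exact this

lemma downCount_eq {u v : Perm (Fin n)} (h : le u v) : downCount u v = (Co u v).card := by
  classical
  unfold downCount
  apply Finset.card_bij (fun p _ => v * swap p.1 p.2)
  · rintro ⟨i, j⟩ hp
    simp only [mem_filter, mem_univ, true_and] at hp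
    obtain ⟨h1, h2, h3, h4⟩ := hp
    have hc : (v * swap i j) i < (v * swap i j) j := by simpa using h2
    have hv : v * swap i j * swap i j = v := by rw [mul_assoc, swap_mul_self, mul_one]
    rw [mem_Co]
    constructor
    · have h0 : inner (v * swap i j) i j = 0 := by
        unfold inner
        rw [Finset.card_eq_zero, Finset.filter_eq_empty_iff]
        rintro k - ⟨k1, k2, k3, k4⟩
        have hk : (v * swap i j) k = v k := by
          simp [swap_apply_of_ne_of_ne (ne_of_gt k1) (ne_of_lt k2)]
        rw [hk] at k3 k4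
        simp only [Perm.mul_apply, swap_apply_left, swap_apply_right] at k3 k4
        exact h3 k k1 k2 ⟨k3, k4⟩
      have := cov_of_inner (v * swap i j) h1 hc h0
      rwa [hv] at this
    · intro a b
      show rk u a b ≤ rk (v * swap i j) a b
      have hr := rk_swap (v * swap i j) h1 hc a b
      rw [hv] at hr
      simp only [Perm.mul_apply, swap_apply_left, swap_apply_right] at hr
      split_ifs at hr with hcell
      · obtain ⟨c1, c2, c3, c4⟩ := hcell
        have ha : a < n := lt_of_le_of_lt c2 j.2
        have hb : b < n := lt_of_le_of_lt c4 (v i).2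
        have := h4 ⟨a, ha⟩ ⟨b, hb⟩ c1 c2 c3 c4
        rw [r_eq, r_eq] at this
        simp only at this
        omega
      · have := h a b
        omega
  · rintro ⟨i, j⟩ hp ⟨i', j'⟩ hp' heq
    simp only [mem_filter, mem_univ, true_and] at hp hp'
    have := swap_inj hp.1 hp'.1 (mul_left_cancel heq)
    exact Prod.ext this.1 this.2
  · intro c hc
    rw [mem_Co] at hc
    obtain ⟨⟨⟨i, j, h1, h2, hv⟩, h3⟩, h4⟩ := hc
    have hcv : v * swap i j = c := by rw [hv, mul_assoc, swap_mul_self, mul_one]
    have hvi : v i = c j := by rw [hv]; simp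
    have hvj : v j = c i := by rw [hv]; simp
    refine ⟨(i, j), ?_, hcv⟩
    simp only [mem_filter, mem_univ, true_and]
    refine ⟨h1, by rw [hvi, hvj]; exact h2, ?_, ?_⟩
    · intro k k1 k2 k3
      have h0 : inner c i j = 0 := inner_eq_zero h1 h2 (by rw [← hv]; exact h3)
      unfold inner at h0
      rw [Finset.card_eq_zero, Finset.filter_eq_empty_iff] at h0
      have hk : v k = c k := by
        rw [hv]; simp [swap_apply_of_ne_of_ne (ne_of_gt k1) (ne_of_lt k2)]
      rw [hk, hvi, hvj] at k3
      exact h0 (mem_univ k) ⟨k1, k2, k3.1, k3.2⟩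
    · intro a b c1 c2 c3 c4
      rw [hvi] at c4
      rw [hvj] at c3
      have hr := rk_swap c h1 h2 (a : ℕ) (b : ℕ)
      rw [← hv, if_pos ⟨c1, c2, c3, c4⟩] at hr
      have := h4 a b
      rw [r_eq, r_eq]
      omega

/-- **Main theorem** (complete answer to Q1). -/
theorem result (n : ℕ) (u v : Perm (Fin n)) :
    List.TFAE [
      Bruhat u v ∧ IsBoolean u v,
      Bruhat u v ∧ inv v = inv u + upDegree u v ∧ inv v = inv u + coatoms u v,
      (∀ a b : Fin n, r u a b ≤ r v a b) ∧
        inv v = inv u + upCount u v ∧ inv v = inv u + downCount u v] := by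
  have h12 : (Bruhat u v ∧ IsBoolean u v) ↔ Good u v := by
    constructor
    · rintro ⟨h1, h2⟩
      exact good_of_isBoolean ((bruhat_iff_le _ _).1 h1) h2
    · intro h
      exact ⟨(bruhat_iff_le _ _).2 h.1, isBoolean_of_good h⟩
  have h2 : (Bruhat u v ∧ inv v = inv u + upDegree u v ∧ inv v = inv u + coatoms u v) ↔
      Good u v := by
    rw [bruhat_iff_le, upDegree_eq, coatoms_eq]
    unfold Good
    constructor
    · rintro ⟨a1, a2, a3⟩; exact ⟨a1, by omega, by omega⟩
    · rintro ⟨a1, a2, a3⟩; exact ⟨a1, by omega, by omega⟩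
  have h3 : ((∀ a b : Fin n, r u a b ≤ r v a b) ∧
        inv v = inv u + upCount u v ∧ inv v = inv u + downCount u v) ↔ Good u v := by
    rw [← le_iff_r]
    unfold Good
    constructor
    · rintro ⟨a1, a2, a3⟩
      rw [upCount_eq a1] at a2
      rw [downCount_eq a1] at a3
      exact ⟨a1, by omega, by omega⟩
    · rintro ⟨a1, a2, a3⟩
      rw [upCount_eq a1, downCount_eq a1]
      exact ⟨a1, by omega, by omega⟩
  tfae_have 1 ↔ 2 := h12.trans h2.symm
  tfae_have 2 ↔ 3 := h2.trans h3.symm
  tfae_finish

end Pool.Agent.Results.MP_0fb7f5_co.BooleanIntervals
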